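import Pool.Agent.TH325.PQ.Surv

set_option autoImplicit false

/-! # The colours which survive Rankin's choice -/

namespace Pool.Agent.L7h45.PR

open Finset Polynomial

open scoped Classical

open Pool.Agent.H426R3.SQ (zR)

/-- `u` survives the classes `0` modulo the primes in `(zR y, y]` and `-e` modulo the primes up to
`zR y`, the prime `ps` excepted -/
def Sv (y : ℝ) (ps : ℕ) (u e : ℤ) : Prop :=
  (∀ p : ℕ, p.Prime → zR y < (p : ℝ) → (p : ℝ) ≤ y → p ≠ ps → ¬ (p : ℤ) ∣ u) ∧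
  (∀ p : ℕ, p.Prime → (p : ℝ) ≤ zR y → p ≠ ps → ¬ (p : ℤ) ∣ u + e)

theorem Sv_neg {y : ℝ} {ps : ℕ} {u e : ℤ} (h : Sv y ps u e) : Sv y ps (-u) (-e) := by
  refine ⟨fun p hp h1 h2 h3 h4 => h.1 p hp h1 h2 h3 ((dvd_neg).1 h4), fun p hp h1 h2 h3 => ?_⟩
  apply h.2 p hp h1 h2
  have h4 : u + e = -(-u + -e) := by ring
  rw [h4]
  exact (dvd_neg).2 h3

/-- the weight of `e` -/
noncomputable def We (e : ℤ) : ℝ := ∏ p ∈ e.natAbs.primeFactors, (1 + 3 / (p : ℝ))

theorem We_pos (e : ℤ) : 0 < We e := Finset.prod_pos fun p _ => by positivity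

theorem We_neg (e : ℤ) : We (-e) = We e := by
  unfold We
  rw [Int.natAbs_neg]

/-- the number of the survivors -/
theorem surv : ∃ C : ℝ, 0 < C ∧ ∃ y₀ : ℝ, ∀ y : ℝ, y₀ ≤ y → ∀ T : ℕ, y ≤ T →
    (T : ℝ) ≤ y * (Real.log y) ^ 2 → ∀ ps : ℕ, (ps = 1 ∨ (ps.Prime ∧ 2 < ps)) →
    ∀ e : ℤ, e ≠ 0 →
    (((Finset.Icc (-(T : ℤ)) T).filter (fun u : ℤ => Sv y ps u e)).card : ℝ) ≤
      C * T * (Real.log (Real.log y)) ^ 2 /
        ((Real.log y) ^ 2 * Real.log (Real.log (Real.log y))) * We e + 1 := by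
  obtain ⟨C, hC, y₀, h⟩ := Pool.Agent.TH325.PQ.survivors_ex
  refine ⟨2 * C, by positivity, y₀, fun y hy T hT1 hT2 ps hps e he => ?_⟩
  have hnat : ∀ e : ℤ, e ≠ 0 → (((Finset.Icc 1 T).filter (fun u : ℕ => Sv y ps (u : ℤ) e)).card : ℝ) ≤
      C * T * (Real.log (Real.log y)) ^ 2 /
        ((Real.log y) ^ 2 * Real.log (Real.log (Real.log y))) * We e := by
    intro e he
    have h1 := h y hy T hT1 hT2 ∅ ps (by simp) (by
      simp only [Finset.sum_empty]
      positivity) hps e he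
    refine le_trans ?_ h1
    have h2 : (Finset.Icc 1 T).filter (fun u : ℕ => Sv y ps (u : ℤ) e) ⊆
        (Finset.Icc 1 T).filter (fun u : ℕ =>
      (∀ p : ℕ, p.Prime → zR y < (p : ℝ) → (p : ℝ) ≤ y → p ∉ (∅ : Finset ℕ) → p ≠ ps → ¬ p ∣ u) ∧
      (∀ p : ℕ, p.Prime → (p : ℝ) ≤ zR y → p ∉ (∅ : Finset ℕ) → p ≠ ps →
        ¬ (p : ℤ) ∣ (u : ℤ) + e)) := by
      intro u hu
      rw [mem_filter] at hu ⊢
      refine ⟨hu.1, fun p hp h1 h2 _ h3 h4 => hu.2.1 p hp h1 h2 h3 (Int.natCast_dvd_natCast.2 h4),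
        fun p hp h1 _ h3 => hu.2.2 p hp h1 h3⟩
    exact_mod_cast card_le_card h2
  have h1 := hnat e he
  have h2 := hnat (-e) (neg_ne_zero.2 he)
  rw [We_neg] at h2
  have h3 : ((Finset.Icc (-(T : ℤ)) T).filter (fun u : ℤ => Sv y ps u e)) ⊆
      (((Finset.Icc 1 T).filter (fun u : ℕ => Sv y ps (u : ℤ) e)).image (fun u : ℕ => (u : ℤ))) ∪
      ((((Finset.Icc 1 T).filter (fun u : ℕ => Sv y ps (u : ℤ) (-e))).image
        (fun u : ℕ => -(u : ℤ))) ∪ {0}) := by
    intro u hu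
    rw [mem_filter, mem_Icc] at hu
    obtain ⟨⟨h4, h5⟩, h6⟩ := hu
    rcases lt_trichotomy u 0 with h7 | h7 | h7
    · apply mem_union_right
      apply mem_union_left
      rw [mem_image]
      refine ⟨u.natAbs, ?_, by omega⟩
      rw [mem_filter, mem_Icc]
      refine ⟨⟨by omega, by omega⟩, ?_⟩
      have h8 := Sv_neg h6
      have h9 : ((u.natAbs : ℕ) : ℤ) = -u := by omega
      rw [h9]
      exact h8
    · apply mem_union_right
      apply mem_union_right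
      rw [mem_singleton]
      exact h7
    · apply mem_union_left
      rw [mem_image]
      refine ⟨u.natAbs, ?_, by omega⟩
      rw [mem_filter, mem_Icc]
      refine ⟨⟨by omega, by omega⟩, ?_⟩
      have h9 : ((u.natAbs : ℕ) : ℤ) = u := by omega
      rw [h9]
      exact h6
  have h4 := (card_le_card h3).trans (card_union_le _ _)
  have h5 := card_union_le (((Finset.Icc 1 T).filter (fun u : ℕ => Sv y ps (u : ℤ) (-e))).image
        (fun u : ℕ => -(u : ℤ))) ({0} : Finset ℤ)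
  have h6 := card_image_le (s := (Finset.Icc 1 T).filter (fun u : ℕ => Sv y ps (u : ℤ) e))
    (f := fun u : ℕ => (u : ℤ))
  have h7 := card_image_le (s := (Finset.Icc 1 T).filter (fun u : ℕ => Sv y ps (u : ℤ) (-e)))
    (f := fun u : ℕ => -(u : ℤ))
  rw [card_singleton] at h5
  have h8 : ((Finset.Icc (-(T : ℤ)) T).filter (fun u : ℤ => Sv y ps u e)).card ≤
      ((Finset.Icc 1 T).filter (fun u : ℕ => Sv y ps (u : ℤ) e)).card +
      ((Finset.Icc 1 T).filter (fun u : ℕ => Sv y ps (u : ℤ) (-e))).card + 1 := by omega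
  have h9 : (((Finset.Icc (-(T : ℤ)) T).filter (fun u : ℤ => Sv y ps u e)).card : ℝ) ≤
      (((Finset.Icc 1 T).filter (fun u : ℕ => Sv y ps (u : ℤ) e)).card : ℝ) +
      (((Finset.Icc 1 T).filter (fun u : ℕ => Sv y ps (u : ℤ) (-e))).card : ℝ) + 1 := by
    exact_mod_cast h8
  have h10 : 2 * C * T * (Real.log (Real.log y)) ^ 2 /
        ((Real.log y) ^ 2 * Real.log (Real.log (Real.log y))) * We e = 
      C * T * (Real.log (Real.log y)) ^ 2 /
        ((Real.log y) ^ 2 * Real.log (Real.log (Real.log y))) * We e + 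
      C * T * (Real.log (Real.log y)) ^ 2 /
        ((Real.log y) ^ 2 * Real.log (Real.log (Real.log y))) * We e := by ring
  rw [h10]
  linarith

end Pool.Agent.L7h45.PR
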