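import Mathlib

set_option autoImplicit false

/-! # Few residue classes where a polynomial is divisible by a high power of a prime -/

namespace Pool.Agent.L7h45.PR

open Finset Polynomial

theorem pow_dvd_of {p : ℕ} (hp : p.Prime) {x y : ℤ} {e j : ℕ} (h : ((p : ℤ) ^ e) ∣ x * y)
    (hx : ¬ ((p : ℤ) ^ (j + 1)) ∣ x) : ((p : ℤ) ^ (e - j)) ∣ y := by
  have hpi : Prime (p : ℤ) := Nat.prime_iff_prime_int.mp hp
  have hx0 : x ≠ 0 := by
    rintro rfl
    exact hx (dvd_zero _)
  have hfin : FiniteMultiplicity (p : ℤ) x :=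
    Int.finiteMultiplicity_iff.2 ⟨by simpa using hp.ne_one, hx0⟩
  obtain ⟨x', h1, h2⟩ := hfin.exists_eq_pow_mul_and_not_dvd
  set i := multiplicity (p : ℤ) x with hi
  have hij : i ≤ j := by
    by_contra hcon
    push Not at hcon
    apply hx
    rw [h1]
    exact Dvd.dvd.mul_right (pow_dvd_pow _ hcon) _
  rcases Nat.lt_or_ge e i with hei | hei
  · have : e - j = 0 := by omega
    rw [this, pow_zero]
    exact one_dvd _
  · have h3 : (p : ℤ) ^ i * (p : ℤ) ^ (e - i) ∣ (p : ℤ) ^ i * (x' * y) := by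
      rw [← pow_add, Nat.add_sub_cancel' hei, ← mul_assoc, ← h1]
      exact h
    have h4 : (p : ℤ) ^ (e - i) ∣ x' * y :=
      (mul_dvd_mul_iff_left (pow_ne_zero _ hpi.ne_zero)).1 h3
    have h5 : (p : ℤ) ^ (e - i) ∣ y := hpi.pow_dvd_of_dvd_mul_left _ h2 h4
    exact (pow_dvd_pow _ (by omega)).trans h5

theorem lead_dvd {p : ℕ} (hp : p.Prime) (j : ℕ) : ∀ (d : ℕ) (f : ℤ[X]), f.natDegree = d →
    ∀ (e : ℕ) (S : Finset ℤ), S.card = d + 1 →
    (∀ a ∈ S, ∀ b ∈ S, a ≠ b → ¬ ((p : ℤ) ^ (j + 1)) ∣ a - b) →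
    (∀ a ∈ S, ((p : ℤ) ^ e) ∣ f.eval a) → ((p : ℤ) ^ (e - d * j)) ∣ f.leadingCoeff := by
  intro d
  induction d with
  | zero =>
    intro f hf e S hS hinc hdiv
    obtain ⟨a, ha⟩ : S.Nonempty := by
      rw [← Finset.card_pos]; omega
    have h1 := hdiv a ha
    have h2 := Polynomial.eq_C_of_natDegree_eq_zero hf
    rw [h2, Polynomial.eval_C] at h1
    rw [h2, Polynomial.leadingCoeff_C, Nat.zero_mul, Nat.sub_zero]
    exact h1
  | succ d ih =>
    intro f hf e S hS hinc hdiv
    obtain ⟨a, ha⟩ : S.Nonempty := by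
      rw [← Finset.card_pos]; omega
    set g := f /ₘ (X - C a) with hg
    have hfg : (X - C a) * g + C (f.eval a) = f := by
      have h := Polynomial.modByMonic_add_div f (X - C a)
      rw [Polynomial.modByMonic_X_sub_C_eq_C_eval] at h
      rw [hg]
      linear_combination h
    have hmon : (X - C a : ℤ[X]).Monic := Polynomial.monic_X_sub_C a
    have hgd : g.natDegree = d := by
      rw [hg, Polynomial.natDegree_divByMonic f hmon, hf, Polynomial.natDegree_X_sub_C]
      rfl
    have hgl : g.leadingCoeff = f.leadingCoeff := by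
      rw [hg]
      apply Polynomial.leadingCoeff_divByMonic_of_monic hmon
      rw [Polynomial.degree_X_sub_C]
      have hf0 : f ≠ 0 := by
        rintro rfl
        simp at hf
      rw [Polynomial.degree_eq_natDegree hf0, hf]
      exact_mod_cast Nat.succ_le_succ (Nat.zero_le d)
    have h1 := ih g hgd (e - j) (S.erase a) (by rw [Finset.card_erase_of_mem ha, hS]; rfl)
      (fun b hb c hc hbc => hinc b (Finset.mem_of_mem_erase hb) c (Finset.mem_of_mem_erase hc) hbc)
      (by
        intro b hb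
        have hb1 := Finset.mem_of_mem_erase hb
        have hb2 := Finset.ne_of_mem_erase hb
        apply pow_dvd_of hp (x := b - a) _ (hinc b hb1 a ha hb2)
        have h2 : f.eval b = (b - a) * g.eval b + f.eval a := by
          conv_lhs => rw [← hfg]
          simp
        have h3 : (b - a) * g.eval b = f.eval b - f.eval a := by linarith
        rw [h3]
        exact dvd_sub (hdiv b hb1) (hdiv a ha))
    rw [hgl] at h1
    have h2 : e - (d + 1) * j = e - j - d * j := by
      rw [Nat.sub_sub]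
      congr 1
      ring
    rw [h2]
    exact h1

/-- the number of classes modulo `p ^ (j + 1)` -/
theorem card_classes {p : ℕ} (hp : p.Prime) (f : ℤ[X]) {d α j e : ℕ} (hd : f.natDegree = d)
    (hα : ¬ ((p : ℤ) ^ (α + 1)) ∣ f.leadingCoeff) (he : α + d * j < e) (A : Finset ℕ)
    (hA : ∀ n ∈ A, ((p : ℤ) ^ e) ∣ f.eval (n : ℤ)) :
    (A.image (fun n => n % p ^ (j + 1))).card ≤ d := by
  by_contra hcon
  push Not at hcon
  obtain ⟨R, hR1, hR2⟩ := Finset.exists_subset_card_eq (show d + 1 ≤ _ from hcon)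
  -- choose representatives
  have hch : ∀ r ∈ R, ∃ n ∈ A, n % p ^ (j + 1) = r := by
    intro r hr
    have := hR1 hr
    rw [Finset.mem_image] at this
    exact this
  choose! rep hrep1 hrep2 using hch
  have hinj : Set.InjOn (fun r => (rep r : ℤ)) (R : Set ℕ) := by
    intro r hr s hs h
    have h' : rep r = rep s := by
      simp only [Nat.cast_inj] at h
      exact h
    rw [← hrep2 r hr, ← hrep2 s hs, h']
  have h1 := lead_dvd hp j d f hd e (R.image (fun r => (rep r : ℤ)))
    (by rw [Finset.card_image_of_injOn hinj, hR2])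
    (by
      intro a ha b hb hab hdvd
      rw [Finset.mem_image] at ha hb
      obtain ⟨r, hr, rfl⟩ := ha
      obtain ⟨s, hs, rfl⟩ := hb
      have h2 : (rep s : ℤ) ≡ rep r [ZMOD ((p ^ (j + 1) : ℕ) : ℤ)] := by
        rw [Int.modEq_iff_dvd]
        push_cast
        exact hdvd
      have h3 : rep s ≡ rep r [MOD p ^ (j + 1)] := (Int.natCast_modEq_iff).1 h2
      have h4 : s = r := by
        rw [← hrep2 r hr, ← hrep2 s hs]
        exact h3
      exact hab (by rw [h4]))
    (by
      intro a ha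
      rw [Finset.mem_image] at ha
      obtain ⟨r, hr, rfl⟩ := ha
      exact hA _ (hrep1 r hr))
  apply hα
  exact (pow_dvd_pow _ (by omega)).trans h1

end Pool.Agent.L7h45.PR
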