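import Pool.Agent.L7h45.PR.Many
import Pool.Agent.L7h45.PR.Cnt

set_option autoImplicit false

/-! # The arithmetic core -/

namespace Pool.Agent.L7h45.PR

open Finset Polynomial

open scoped Classical

open Pool.Agent.H426R3.SQ (zR)

/-- the surviving colours -/
noncomputable def Sur (F : Finset ℤ[X]) (m₀ : ℕ) (y : ℝ) (T : ℕ) (ps : ℕ) : Finset (ℤ[X] × ℤ) :=
  (F ×ˢ Icc (-(T : ℤ)) T).filter (fun c => c.1.coeff 0 + c.2 ≠ 0 ∧
    Sv y ps (c.1.eval (m₀ : ℤ) + c.2) (c.1.eval 1 - c.1.eval (m₀ : ℤ)))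

theorem dvd_eval_of {f : ℤ[X]} {p : ℕ} {x t : ℤ} (h : (p : ℤ) ∣ x - t) (ht : (p : ℤ) ∣ f.eval t) :
    (p : ℤ) ∣ f.eval x := by
  have h1 := Polynomial.sub_dvd_eval_sub x t f
  exact (dvd_sub_left ht).1 (h.trans h1)

theorem core (F : Finset ℤ[X]) (m₀ : ℕ) (hm₀ : 1 ≤ m₀) {y : ℝ} (hy : 1 ≤ y) (hz2 : 2 ≤ zR y)
    (hzm : (m₀ : ℝ) < zR y) (hzy : zR y ≤ y) (T C₃ : ℕ) (hC₃ : 1 ≤ C₃) (p₀ ps : ℕ) (hp1 : p₀.Prime)
    (hps : ps = p₀ ∨ (p₀ = 2 ∧ ps = 1)) (pc : ℤ[X] × ℤ → ℕ)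
    (hpc : ∀ c ∈ Sur F m₀ y T ps, pc c ∈ RP (c.1 + C c.2) y C₃ ∧ pc c ≠ p₀)
    (hinj : Set.InjOn pc (Sur F m₀ y T ps : Set (ℤ[X] × ℤ))) :
    ∃ q b : ℕ, 0 < q ∧ ¬ p₀ ∣ q ∧ b.Coprime q ∧
      (q : ℝ) ≤ (primorial ⌊y⌋₊ : ℝ) * (y ^ C₃) ^ (Sur F m₀ y T ps).card ∧
      ∀ n : ℕ, n.Prime → n ≡ b [MOD q] → y < n →
        ∀ Q ∈ F, ∀ k : ℤ, k ∈ Icc (-(T : ℤ)) T →
          (n : ℤ) ∣ (Q + C k).eval (n : ℤ) ∨
          ∃ p : ℕ, p.Prime ∧ (p : ℝ) ≤ y ^ C₃ ∧ (p : ℤ) ∣ (Q + C k).eval (n : ℤ) := by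
  have hy0 : 0 ≤ y := by linarith
  have hyC : y ≤ y ^ C₃ := le_self_pow₀ hy (by omega)
  set SU := Sur F m₀ y T ps with hSU
  set S₁ : Finset ℕ := ((range (⌊y⌋₊ + 1)).filter Nat.Prime).filter (fun p => p ≠ p₀) with hS₁
  set S₂ : Finset ℕ := SU.image pc with hS₂
  have hS₁mem : ∀ p : ℕ, p ∈ S₁ ↔ p.Prime ∧ (p : ℝ) ≤ y ∧ p ≠ p₀ := by
    intro p
    rw [hS₁, mem_filter, mem_filter, mem_range, Nat.lt_succ_iff, Nat.le_floor_iff hy0]
    tauto
  have hRP : ∀ c ∈ SU, (pc c).Prime ∧ y < (pc c : ℝ) ∧ (pc c : ℝ) ≤ y ^ C₃ ∧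
      ∃ t : ℤ, ((pc c : ℕ) : ℤ) ∣ (c.1 + C c.2).eval t ∧ ¬ ((pc c : ℕ) : ℤ) ∣ t := by
    intro c hc
    have h1 := (hpc c hc).1
    unfold RP at h1
    rw [mem_filter, mem_Icc] at h1
    refine ⟨h1.2.1, h1.2.2.1, ?_, h1.2.2.2⟩
    calc (pc c : ℝ) ≤ (⌊y ^ C₃⌋₊ : ℝ) := by exact_mod_cast h1.1.2
      _ ≤ y ^ C₃ := Nat.floor_le (by positivity)
  choose! rt hrt using fun c hc => (hRP c hc).2.2.2
  -- the residues
  set a : ℕ → ℕ := fun p => if (p : ℝ) ≤ zR y then 1 else if (p : ℝ) ≤ y then m₀ else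
    if h : ∃ c ∈ SU, pc c = p then ((rt h.choose) % (p : ℤ)).toNat else 1 with ha
  have ha1 : ∀ p : ℕ, (p : ℝ) ≤ zR y → a p = 1 := by
    intro p hp
    simp only [ha]
    rw [if_pos hp]
  have ha2 : ∀ p : ℕ, zR y < (p : ℝ) → (p : ℝ) ≤ y → a p = m₀ := by
    intro p hp hp2
    simp only [ha]
    rw [if_neg (not_le.2 hp), if_pos hp2]
  have ha3 : ∀ c ∈ SU, ((a (pc c) : ℕ) : ℤ) ≡ rt c [ZMOD ((pc c : ℕ) : ℤ)] := by
    intro c hc
    have h1 := (hRP c hc).2.1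
    have h2 : ∃ c' ∈ SU, pc c' = pc c := ⟨c, hc, rfl⟩
    have h3 : a (pc c) = ((rt h2.choose) % ((pc c : ℕ) : ℤ)).toNat := by
      simp only [ha]
      rw [if_neg (not_le.2 (lt_of_le_of_lt hzy h1)), if_neg (not_le.2 h1), dif_pos h2]
    have h4 : h2.choose = c := hinj h2.choose_spec.1 hc h2.choose_spec.2
    rw [h3, h4]
    have hpos : (0 : ℤ) < ((pc c : ℕ) : ℤ) := by exact_mod_cast (hRP c hc).1.pos
    rw [Int.toNat_of_nonneg (Int.emod_nonneg _ hpos.ne')]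
    exact Int.mod_modEq _ _
  set S := S₁ ∪ S₂ with hS
  have hSp : ∀ p ∈ S, p.Prime := by
    intro p hp
    rcases mem_union.1 hp with h | h
    · exact ((hS₁mem p).1 h).1
    · obtain ⟨c, hc, rfl⟩ := mem_image.1 h
      exact (hRP c hc).1
  have hcopS : Set.Pairwise (S : Set ℕ) (Function.onFun Nat.Coprime (fun p : ℕ => p)) := by
    intro p hp l hl hpl
    exact (Nat.coprime_primes (hSp p hp) (hSp l hl)).2 hpl
  obtain ⟨b, hb⟩ := Nat.chineseRemainderOfFinset a (fun p : ℕ => p) S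
    (fun p hp => (hSp p hp).ne_zero) hcopS
  have hunit : ∀ p ∈ S, ¬ p ∣ a p := by
    intro p hp
    rcases mem_union.1 hp with h | h
    · obtain ⟨h1, h2, h3⟩ := (hS₁mem p).1 h
      rcases le_or_gt (p : ℝ) (zR y) with h4 | h4
      · rw [ha1 p h4]
        exact h1.not_dvd_one
      · rw [ha2 p h4 h2]
        intro h5
        have h6 := Nat.le_of_dvd (by omega) h5
        have h7 : (p : ℝ) ≤ m₀ := by exact_mod_cast h6
        linarith
    · obtain ⟨c, hc, rfl⟩ := mem_image.1 h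
      intro h5
      have h6 := ha3 c hc
      have h7 : ((pc c : ℕ) : ℤ) ∣ ((a (pc c) : ℕ) : ℤ) := Int.natCast_dvd_natCast.2 h5
      have h8 : ((pc c : ℕ) : ℤ) ∣ rt c := (Int.ModEq.dvd_iff h6).1 h7
      exact (hrt c hc).2 h8
  refine ⟨∏ p ∈ S, p, b, Finset.prod_pos (fun p hp => (hSp p hp).pos), ?_, ?_, ?_, ?_⟩
  · intro h
    rw [hp1.prime.dvd_finsetProd_iff] at h
    obtain ⟨p, hp, h2⟩ := h
    have h3 : p₀ = p := (Nat.prime_dvd_prime_iff_eq hp1 (hSp p hp)).1 h2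
    rcases mem_union.1 hp with h4 | h4
    · exact ((hS₁mem p).1 h4).2.2 h3.symm
    · obtain ⟨c, hc, h5⟩ := mem_image.1 h4
      exact (hpc c hc).2 (h5.trans h3.symm)
  · apply Nat.Coprime.prod_right
    intro p hp
    rw [Nat.coprime_comm, Nat.Prime.coprime_iff_not_dvd (hSp p hp)]
    intro h
    apply hunit p hp
    exact (Nat.ModEq.dvd_iff (hb p hp) (dvd_refl _)).1 h
  · have hdisj : Disjoint S₁ S₂ := by
      rw [Finset.disjoint_left]
      intro p h1 h2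
      have h3 := ((hS₁mem p).mp h1).2.1
      obtain ⟨c, hc, rfl⟩ := mem_image.1 h2
      have h4 := (hRP c hc).2.1
      linarith
    push_cast
    rw [hS, Finset.prod_union hdisj]
    apply mul_le_mul
    · have h1 : ∏ p ∈ S₁, p ≤ primorial ⌊y⌋₊ := by
        unfold primorial
        apply Finset.prod_le_prod_of_subset_of_one_le'
        · exact filter_subset _ _
        · intro p hp _
          exact (mem_filter.1 hp).2.one_lt.le
      calc ∏ p ∈ S₁, (p : ℝ) = ((∏ p ∈ S₁, p : ℕ) : ℝ) := by push_cast; rfl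
        _ ≤ _ := by exact_mod_cast h1
    · calc ∏ p ∈ S₂, (p : ℝ) ≤ ∏ p ∈ S₂, (y ^ C₃ : ℝ) := by
            apply Finset.prod_le_prod
            · intro p _
              positivity
            · intro p hp
              obtain ⟨c, hc, rfl⟩ := mem_image.1 hp
              exact (hRP c hc).2.2.1
        _ = (y ^ C₃) ^ S₂.card := by rw [Finset.prod_const]
        _ ≤ (y ^ C₃) ^ SU.card := pow_le_pow_right₀ (one_le_pow₀ hy) card_image_le
    · positivity
    · positivity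
  · intro n hn hnb hyn Q hQ k hk
    have hmod : ∀ p ∈ S, (p : ℤ) ∣ (n : ℤ) - (a p : ℕ) := by
      intro p hp
      have h1 : n ≡ b [MOD p] := hnb.of_dvd (Finset.dvd_prod_of_mem _ hp)
      have h2 : n ≡ a p [MOD p] := h1.trans (hb p hp)
      exact (Nat.modEq_iff_dvd.1 h2.symm)
    by_cases h0 : Q.coeff 0 + k = 0
    · left
      have h1 := Polynomial.sub_dvd_eval_sub (n : ℤ) 0 (Q + C k)
      have h2 : (Q + C k).eval 0 = 0 := by
        rw [← Polynomial.coeff_zero_eq_eval_zero]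
        simpa using h0
      rw [h2, sub_zero, sub_zero] at h1
      exact h1
    right
    by_cases hc : (Q, k) ∈ SU
    · have h1 := hRP _ hc
      refine ⟨pc (Q, k), h1.1, h1.2.2.1, ?_⟩
      apply dvd_eval_of (t := rt (Q, k)) _ (hrt _ hc).1
      have h2 := hmod (pc (Q, k)) (mem_union_right _ (mem_image_of_mem _ hc))
      have h3 := (ha3 _ hc).symm.dvd
      have h4 : (n : ℤ) - rt (Q, k) = ((n : ℤ) - (a (pc (Q, k)) : ℕ)) +
        (((a (pc (Q, k)) : ℕ) : ℤ) - rt (Q, k)) := by ring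
      rw [h4]
      exact dvd_add h2 h3
    · have h1 : ¬ Sv y ps (Q.eval (m₀ : ℤ) + k) (Q.eval 1 - Q.eval (m₀ : ℤ)) := by
        intro h
        apply hc
        rw [hSU]
        unfold Sur
        rw [mem_filter, mem_product]
        exact ⟨⟨hQ, hk⟩, h0, h⟩
      unfold Sv at h1
      rw [not_and_or] at h1
      rcases h1 with h1 | h1
      · push Not at h1
        obtain ⟨p, hp, h2, h3, h4, h5⟩ := h1
        have hp₀ : p ≠ p₀ := by
          rcases hps with h6 | ⟨h6, h7⟩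
          · rw [← h6]; exact h4
          · intro h8
            rw [h8, h6] at h2
            push_cast at h2
            linarith
        have hpS : p ∈ S := mem_union_left _ ((hS₁mem p).2 ⟨hp, h3, hp₀⟩)
        refine ⟨p, hp, h3.trans hyC, ?_⟩
        have h6 := hmod p hpS
        rw [ha2 p h2 h3] at h6
        apply dvd_eval_of h6
        simpa using h5
      · push Not at h1
        obtain ⟨p, hp, h2, h3, h4⟩ := h1
        have h5 : (p : ℤ) ∣ (Q + C k).eval 1 := by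
          have e : Q.eval (m₀ : ℤ) + k + (Q.eval 1 - Q.eval (m₀ : ℤ)) = (Q + C k).eval 1 := by
            simp
            ring
          rw [← e]
          exact h4
        refine ⟨p, hp, (h2.trans hzy).trans hyC, ?_⟩
        apply dvd_eval_of _ h5
        by_cases hp₀ : p = p₀
        · have h6 : p = 2 := by
            rcases hps with h7 | ⟨h7, h8⟩
            · exact absurd (hp₀.trans h7.symm) h3
            · rw [hp₀, h7]
          rw [h6]
          have h7 : n ≠ 2 := by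
            rintro rfl
            have : (2 : ℝ) ≤ y := hz2.trans hzy
            push_cast at hyn
            linarith
          have h8 := hn.eq_two_or_odd
          omega
        · have hpS : p ∈ S := mem_union_left _ ((hS₁mem p).2 ⟨hp, h2.trans hzy, hp₀⟩)
          have h6 := hmod p hpS
          rw [ha1 p h2] at h6
          exact_mod_cast h6

end Pool.Agent.L7h45.PR
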