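import Mathlib
import Pool.Agent.H426R3.SQ.Defs

set_option autoImplicit false

/-! # Elementary inequalities for the assembly -/

namespace Pool.Agent.L7h45.PR

open Filter Topology

open Pool.Agent.H426R3.SQ (zR)

/-- Rankin's function of `y = log X` -/
noncomputable def Rk (y : ℝ) : ℝ :=
  y * Real.log y * Real.log (Real.log (Real.log y)) / (Real.log (Real.log y)) ^ 2

theorem tl : Tendsto (fun X : ℝ => Real.log X) atTop atTop := Real.tendsto_log_atTop

theorem ev_y (c₁ M : ℝ) (hc₁ : 0 < c₁) : ∀ᶠ y : ℝ in atTop,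
    M ≤ y ∧ 2 ≤ y ∧ 1 ≤ Real.log y ∧ 1 ≤ Real.log (Real.log y) ∧
    1 ≤ Real.log (Real.log (Real.log y)) ∧ 2 * y ≤ c₁ * Rk y ∧ 2 * (c₁ * Rk y) ≤ y * (Real.log y) ^ 2 ∧
    y * (Real.log y) ^ 2 ≤ y ^ 2 ∧ M * Real.log y ≤ y / 2 ∧ M < zR y ∧ zR y ≤ y := by
  have t2 : Tendsto (fun X : ℝ => Real.log (Real.log X)) atTop atTop := tl.comp tl
  have t3 : Tendsto (fun X : ℝ => Real.log (Real.log (Real.log X))) atTop atTop := tl.comp t2
  have hsq : ∀ K : ℝ, 0 < K → ∀ᶠ x : ℝ in atTop, K * (Real.log x) ^ 2 ≤ x := by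
    intro K hK
    have h0 : ∀ᶠ x : ℝ in atTop, ‖Real.log x ^ 2‖ ≤ (1 / K : ℝ) * ‖id x‖ :=
      (Real.isLittleO_pow_log_id_atTop (n := 2)).bound (by positivity)
    filter_upwards [h0, eventually_ge_atTop (0 : ℝ)] with x h1 h2
    rw [Real.norm_of_nonneg (by positivity), id, Real.norm_of_nonneg h2] at h1
    rw [one_div, inv_mul_eq_div, le_div_iff₀ hK] at h1
    linarith
  have hlin : ∀ K : ℝ, 0 < K → ∀ᶠ x : ℝ in atTop, K * Real.log x ≤ x := by
    intro K hK
    filter_upwards [hsq K hK, tl.eventually_ge_atTop 1] with x h1 h2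
    have : Real.log x ≤ (Real.log x) ^ 2 := by nlinarith
    calc K * Real.log x ≤ K * (Real.log x) ^ 2 := by gcongr
      _ ≤ x := h1
  set M' : ℝ := |M| + 1 with hM'
  have hM'0 : 0 < M' := by positivity
  have hMM' : M < M' := by
    have := le_abs_self M
    linarith
  filter_upwards [eventually_ge_atTop (max M' 2), tl.eventually_ge_atTop (max 1 (2 * c₁)),
    t2.eventually_ge_atTop 1, t3.eventually_ge_atTop 1, tl.eventually (hsq (2 / c₁) (by positivity)),
    hsq 1 one_pos, hlin (2 * M') (by positivity), tl.eventually (hlin (10 * M') (by positivity))]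
    with y h1 h2 h3 h4 h5 h6 h7 h8
  have e1 : M' ≤ y := (le_max_left _ _).trans h1
  have e2 : 2 ≤ y := (le_max_right _ _).trans h1
  have e3 : 1 ≤ Real.log y := (le_max_left _ _).trans h2
  have e4 : 2 * c₁ ≤ Real.log y := (le_max_right _ _).trans h2
  have hy0 : 0 < y := by linarith
  set l := Real.log y with hl
  set ll := Real.log l with hll
  set lll := Real.log ll with hlll
  have hlll2 : lll ≤ ll := by
    have := Real.log_le_sub_one_of_pos (show 0 < ll by linarith)
    linarith
  have hRk : Rk y = y * (l * lll / ll ^ 2) := by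
    unfold Rk
    rw [← hl, ← hll, ← hlll]
    ring
  refine ⟨by linarith, e2, e3, h3, h4, ?_, ?_, ?_, ?_, ?_, ?_⟩
  · rw [hRk]
    have h9 : 2 ≤ c₁ * (l * lll / ll ^ 2) := by
      rw [← mul_div_assoc, le_div_iff₀ (by positivity)]
      have h10 : 2 * ll ^ 2 ≤ c₁ * l := by
        rw [div_mul_eq_mul_div, div_le_iff₀ hc₁] at h5
        linarith
      calc 2 * ll ^ 2 ≤ c₁ * l := h10
        _ ≤ c₁ * (l * lll) := by
            gcongr
            exact le_mul_of_one_le_right (by linarith) h4
    nlinarith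
  · rw [hRk]
    have h9 : l * lll / ll ^ 2 ≤ l := by
      rw [div_le_iff₀ (by positivity)]
      have : lll ≤ ll ^ 2 := by nlinarith
      gcongr
    have h10 : 2 * (c₁ * (y * (l * lll / ll ^ 2))) ≤ 2 * (c₁ * (y * l)) := by gcongr
    have h11 : 2 * (c₁ * (y * l)) = (2 * c₁) * (y * l) := by ring
    rw [h11] at h10
    have h12 : (2 * c₁) * (y * l) ≤ l * (y * l) := by gcongr
    calc 2 * (c₁ * (y * (l * lll / ll ^ 2))) ≤ l * (y * l) := h10.trans h12
      _ = y * l ^ 2 := by ring
  · rw [one_mul] at h6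
    calc y * l ^ 2 ≤ y * y := by gcongr
      _ = y ^ 2 := by ring
  · have : M * l ≤ M' * l := by gcongr
    linarith
  · have h9 : M' ≤ l * lll / (10 * ll) := by
      rw [le_div_iff₀ (by positivity)]
      calc M' * (10 * ll) = 10 * M' * ll := by ring
        _ ≤ l := h8
        _ ≤ l * lll := le_mul_of_one_le_right (by linarith) h4
    have h10 : M' < Real.exp M' := by
      have := Real.add_one_le_exp M'
      linarith
    unfold zR
    exact hMM'.trans (h10.trans_le (Real.exp_le_exp.2 h9))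
  · unfold zR
    rw [← Real.le_log_iff_exp_le hy0, div_le_iff₀ (by positivity)]
    have h9 : lll ≤ 10 * ll := by linarith
    exact mul_le_mul_of_nonneg_left h9 (by linarith)

/-- comparison with powers of the exponential -/
theorem ev_exp (C₃ : ℕ) (D : ℝ) : ∀ᶠ y : ℝ in atTop,
    2 * y ^ C₃ < Real.exp (50 * y) ∧ 2 * y < Real.exp (50 * y) ∧
    2 * (D * y ^ 2) ≤ Real.exp (50 * y) := by
  have h1 : ∀ k : ℕ, ∀ K : ℝ, 0 < K → ∀ᶠ y : ℝ in atTop, K * y ^ k < Real.exp (50 * y) := by
    intro k K hK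
    have h2 := Real.tendsto_exp_div_pow_atTop k
    filter_upwards [h2.eventually_gt_atTop K, eventually_gt_atTop (0 : ℝ)] with y h3 h4
    rw [lt_div_iff₀ (by positivity)] at h3
    refine h3.trans_le (Real.exp_le_exp.2 (by linarith))
  filter_upwards [h1 C₃ 2 (by norm_num), h1 1 2 (by norm_num), h1 2 (2 * (|D| + 1)) (by positivity)]
    with y h2 h3 h4
  refine ⟨h2, by simpa using h3, ?_⟩
  refine le_trans ?_ h4.le
  have := le_abs_self D
  have h5 : 0 ≤ y ^ 2 := by positivity
  nlinarith

/-- the scale of the theorem -/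
noncomputable def Rf (X : ℝ) : ℝ :=
  Real.log X * Real.log (Real.log X) * Real.log (Real.log (Real.log (Real.log X))) /
    (Real.log (Real.log (Real.log X))) ^ 2

/-- comparison of the scales -/
theorem ev_Rf : ∀ᶠ X : ℝ in atTop, ∀ y : ℝ, Real.log X / 50 ≤ y → y ≤ Real.log X →
    1 / 200 * Rf X ≤ Rk y := by
  have t2 : Tendsto (fun X : ℝ => Real.log (Real.log X)) atTop atTop := tl.comp tl
  have t3 : Tendsto (fun X : ℝ => Real.log (Real.log (Real.log X))) atTop atTop := tl.comp t2
  have t4 : Tendsto (fun X : ℝ => Real.log (Real.log (Real.log (Real.log X)))) atTop atTop :=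
    tl.comp t3
  filter_upwards [tl.eventually_ge_atTop 1, t2.eventually_ge_atTop (2 * Real.log 50 + 1),
    t3.eventually_ge_atTop (2 * Real.log 2 + 1), t4.eventually_ge_atTop (2 * Real.log 2 + 1)]
    with X h1 h2 h3 h4 y hy1 hy2
  have l50 : 0 < Real.log 50 := Real.log_pos (by norm_num)
  have l2 : 0 < Real.log 2 := Real.log_pos (by norm_num)
  unfold Rf Rk
  set L := Real.log X with hL
  set L2 := Real.log L with hL2
  set L3 := Real.log L2 with hL3
  set L4 := Real.log L3 with hL4
  have hL0 : 0 < L := by linarith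
  have hL20 : 0 < L2 := by linarith
  have hL30 : 0 < L3 := by linarith
  have hL40 : 0 < L4 := by linarith
  have hy0 : 0 < y := lt_of_lt_of_le (by positivity) hy1
  set l := Real.log y with hl
  have a1 : L2 / 2 ≤ l := by
    have h5 := Real.log_le_log (by positivity) hy1
    rw [Real.log_div (by positivity) (by norm_num), ← hL2, ← hl] at h5
    linarith
  have a2 : l ≤ L2 := Real.log_le_log hy0 hy2
  have hl0 : 0 < l := by linarith
  set ll := Real.log l with hll
  have b1 : L3 / 2 ≤ ll := by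
    have h5 := Real.log_le_log (by positivity) a1
    rw [Real.log_div (by positivity) (by norm_num), ← hL3, ← hll] at h5
    linarith
  have b2 : ll ≤ L3 := Real.log_le_log hl0 a2
  have hll0 : 0 < ll := by linarith
  set lll := Real.log ll with hlll
  have c1 : L4 / 2 ≤ lll := by
    have h5 := Real.log_le_log (by positivity) b1
    rw [Real.log_div (by positivity) (by norm_num), ← hL4, ← hlll] at h5
    linarith
  calc 1 / 200 * (L * L2 * L4 / L3 ^ 2) = (L / 50) * (L2 / 2) * (L4 / 2) / L3 ^ 2 := by ring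
    _ ≤ y * l * lll / L3 ^ 2 := by
        gcongr
    _ ≤ y * l * lll / ll ^ 2 := by
        have : 0 ≤ lll := by linarith
        gcongr

end Pool.Agent.L7h45.PR
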