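import Pool.Agent.L7h45.PR.Core
import Pool.Agent.L7h45.PR.Ev
import Pool.Agent.Y835.SC.Page
import Pool.Agent.H426R3.SQ.M1a

set_option autoImplicit false

/-! # Large prime gaps around the values of all polynomials at primes -/

namespace Pool.Agent.L7h45.PR

open Finset Polynomial Filter

open scoped Classical

open Pool.Agent.H426R3.SQ (zR)

/-- a point at which no polynomial of the family takes its value at `1` -/
theorem exists_point (F : Finset ℤ[X]) (hF : ∀ Q ∈ F, 1 ≤ Q.natDegree) :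
    ∃ m₀ : ℕ, 1 ≤ m₀ ∧ ∀ Q ∈ F, Q.eval 1 - Q.eval (m₀ : ℤ) ≠ 0 := by
  set R : Finset ℤ := F.biUnion (fun Q => (Q - C (Q.eval 1)).roots.toFinset) with hR
  refine ⟨(∑ x ∈ R, x.natAbs) + 1, by omega, fun Q hQ h => ?_⟩
  set m : ℕ := (∑ x ∈ R, x.natAbs) + 1 with hm
  have h1 : Q - C (Q.eval 1) ≠ 0 := by
    intro h2
    have h3 := hF Q hQ
    rw [sub_eq_zero] at h2
    rw [h2, natDegree_C] at h3
    omega
  have h2 : (m : ℤ) ∈ R := by
    rw [hR, mem_biUnion]
    refine ⟨Q, hQ, ?_⟩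
    rw [Multiset.mem_toFinset, mem_roots h1, IsRoot.def, eval_sub, eval_C]
    linarith
  have h3 := Finset.single_le_sum (f := fun x : ℤ => x.natAbs) (fun x _ => Nat.zero_le _) h2
  simp only [Int.natAbs_natCast] at h3
  omega

/-- the number of the surviving colours -/
theorem Sur_card (F : Finset ℤ[X]) (m₀ : ℕ) (HM : ℕ) (hHM : ∀ Q ∈ F, (Q.eval (m₀ : ℤ)).natAbs ≤ HM)
    (y : ℝ) (T ps : ℕ) (B : ℝ)
    (hB : ∀ Q ∈ F, (((Finset.Icc (-((T + HM : ℕ) : ℤ)) ((T + HM : ℕ) : ℤ)).filter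
      (fun u : ℤ => Sv y ps u (Q.eval 1 - Q.eval (m₀ : ℤ)))).card : ℝ) ≤
      B * We (Q.eval 1 - Q.eval (m₀ : ℤ)) + 1) :
    ((Sur F m₀ y T ps).card : ℝ) ≤
      B * ∑ Q ∈ F, We (Q.eval 1 - Q.eval (m₀ : ℤ)) + F.card := by
  have h1 : Sur F m₀ y T ps ⊆ F.biUnion (fun Q =>
      ((Finset.Icc (-((T + HM : ℕ) : ℤ)) ((T + HM : ℕ) : ℤ)).filter
      (fun u : ℤ => Sv y ps u (Q.eval 1 - Q.eval (m₀ : ℤ)))).image
        (fun u => (Q, u - Q.eval (m₀ : ℤ)))) := by
    intro c hc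
    unfold Sur at hc
    rw [mem_filter, mem_product, mem_Icc] at hc
    obtain ⟨⟨h1, h2, h3⟩, -, h4⟩ := hc
    rw [mem_biUnion]
    refine ⟨c.1, h1, ?_⟩
    rw [mem_image]
    refine ⟨c.1.eval (m₀ : ℤ) + c.2, ?_, ?_⟩
    · rw [mem_filter, mem_Icc]
      have h5 := hHM c.1 h1
      refine ⟨⟨by omega, by omega⟩, h4⟩
    · ext
      · rfl
      · simp
  have h2 := (card_le_card h1).trans card_biUnion_le
  have h3 : ((Sur F m₀ y T ps).card : ℝ) ≤ ∑ Q ∈ F,
      (((Finset.Icc (-((T + HM : ℕ) : ℤ)) ((T + HM : ℕ) : ℤ)).filter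
      (fun u : ℤ => Sv y ps u (Q.eval 1 - Q.eval (m₀ : ℤ)))).card : ℝ) := by
    have h4 : (Sur F m₀ y T ps).card ≤ ∑ Q ∈ F,
      ((Finset.Icc (-((T + HM : ℕ) : ℤ)) ((T + HM : ℕ) : ℤ)).filter
      (fun u : ℤ => Sv y ps u (Q.eval 1 - Q.eval (m₀ : ℤ)))).card :=
      h2.trans (Finset.sum_le_sum fun Q _ => card_image_le)
    exact_mod_cast h4
  refine h3.trans ((Finset.sum_le_sum hB).trans ?_)
  rw [Finset.sum_add_distrib, ← Finset.mul_sum]
  simp

theorem main (F : Finset ℤ[X]) (hF : ∀ Q ∈ F, 1 ≤ Q.natDegree) :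
    ∃ c : ℝ, 0 < c ∧ ∃ K : ℕ, ∃ X₀ : ℝ, ∀ X : ℝ, X₀ ≤ X →
      ∃ N : Finset ℕ, X ^ (9 / 10 : ℝ) ≤ (N.card : ℝ) ∧
        ∀ n ∈ N, n.Prime ∧ X < (n : ℝ) ∧ (n : ℝ) ≤ X ^ K ∧
          ∀ Q ∈ F, (∀ m : ℤ, |(m : ℝ) - ((Q.eval (n : ℤ) : ℤ) : ℝ)| ≤ c * Rf X → (n : ℤ) ∣ m ∨
            ∃ p : ℕ, p.Prime ∧ (p : ℝ) ≤ Real.log X ^ K ∧ (p : ℤ) ∣ m) ∧
          ∀ r : ℕ, r.Prime → r ≠ n →
            c * Rf X < |(r : ℝ) - ((Q.eval (n : ℤ) : ℤ) : ℝ)| := by
  obtain ⟨m₀, hm₀1, hm₀⟩ := exists_point F hF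
  -- sizes
  set D : ℕ := F.sup natDegree + 1 with hD
  have hDle : ∀ Q ∈ F, Q.natDegree ≤ D := fun Q hQ =>
    (Finset.le_sup (f := natDegree) hQ).trans (Nat.le_succ _)
  set HM : ℕ := ∑ Q ∈ F, ((Q.eval (m₀ : ℤ)).natAbs + ∑ i ∈ range (D + 1), (Q.coeff i).natAbs)
    with hHM
  have hHM0 : ∀ Q ∈ F, (Q.eval (m₀ : ℤ)).natAbs + ∑ i ∈ range (D + 1), (Q.coeff i).natAbs ≤ HM := by
    intro Q hQ
    exact Finset.single_le_sum (f := fun Q : ℤ[X] => (Q.eval (m₀ : ℤ)).natAbs +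
      ∑ i ∈ range (D + 1), (Q.coeff i).natAbs) (fun _ _ => Nat.zero_le _) hQ
  have hHM1 : ∀ Q ∈ F, (Q.eval (m₀ : ℤ)).natAbs ≤ HM := fun Q hQ => by
    have := hHM0 Q hQ
    omega
  have hHM2 : ∀ Q ∈ F, ∀ i, (Q.coeff i).natAbs ≤ HM := by
    intro Q hQ i
    rcases Nat.lt_or_ge i (D + 1) with h | h
    · have h1 := Finset.single_le_sum (f := fun i => (Q.coeff i).natAbs) (fun _ _ => Nat.zero_le _)
        (mem_range.2 h)
      have h2 := hHM0 Q hQ
      omega
    · have h1 : Q.natDegree < i := lt_of_le_of_lt (hDle Q hQ) h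
      rw [coeff_eq_zero_of_natDegree_lt h1]
      simp
  have hHM3 : ∀ Q ∈ F, ∀ i, |(Q.coeff i : ℝ)| ≤ HM := by
    intro Q hQ i
    have h1 := hHM2 Q hQ i
    have h2 : ((Q.coeff i).natAbs : ℝ) ≤ HM := by exact_mod_cast h1
    rw [Nat.cast_natAbs] at h2
    push_cast at h2
    exact h2
  obtain ⟨C₃, hC₃1, y₁, hmany⟩ := many D (by omega) (HM : ℝ)
  obtain ⟨Cs, hCs, y₂, hsurv⟩ := surv
  set PW : ℝ := ∑ Q ∈ F, We (Q.eval 1 - Q.eval (m₀ : ℤ)) with hPW
  have hPW0 : 0 ≤ PW := Finset.sum_nonneg fun Q _ => (We_pos _).le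
  obtain ⟨K₀, c₀, hK₀, hc₀, z₀, hpage⟩ := Pool.Agent.Y835.SC.page
  have hC₃r : (1 : ℝ) ≤ C₃ := by exact_mod_cast hC₃1
  set c₁ : ℝ := 1 / (4 * Cs * C₃ * (PW + 1)) with hc₁
  have hc₁0 : 0 < c₁ := by positivity
  set M : ℝ := max (max ((HM : ℝ)) (m₀ : ℝ)) (max 2 ((F.card : ℝ) * C₃)) + (F.card : ℝ) + 1 with hM
  have hMev := ev_y c₁ M hc₁0
  have hEev := ev_exp C₃ (D : ℝ)
  have hRev := ev_Rf
  -- eventually in `y`
  have hyev : ∀ᶠ y : ℝ in atTop, y₁ ≤ y ∧ y₂ ≤ y ∧ (z₀ : ℝ) ≤ Real.exp (50 * y) ∧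
      Real.exp (50 * y) ^ (9 / 10 : ℝ) ≤ c₀ * Real.exp (50 * y) ^ (15 / 16 : ℝ) := by
    have h1 : Tendsto (fun y : ℝ => Real.exp (50 * y)) atTop atTop :=
      Real.tendsto_exp_atTop.comp (tendsto_id.const_mul_atTop (by norm_num))
    have h2 := h1.eventually (tendsto_rpow_atTop (show (0 : ℝ) < 3 / 80 by norm_num)
      |>.eventually_ge_atTop (1 / c₀))
    filter_upwards [eventually_ge_atTop y₁, eventually_ge_atTop y₂, h1.eventually_ge_atTop (z₀ : ℝ),
      h2] with y a1 a2 a3 a4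
    refine ⟨a1, a2, a3, ?_⟩
    have a5 : Real.exp (50 * y) ^ (15 / 16 : ℝ) = Real.exp (50 * y) ^ (3 / 80 : ℝ) *
        Real.exp (50 * y) ^ (9 / 10 : ℝ) := by
      rw [← Real.rpow_add (Real.exp_pos _)]
      norm_num
    rw [a5, ← mul_assoc]
    have a6 : 1 ≤ c₀ * Real.exp (50 * y) ^ (3 / 80 : ℝ) := by
      rw [div_le_iff₀ hc₀] at a4
      linarith
    exact le_mul_of_one_le_left (by positivity) a6
  obtain ⟨Y₀, hY₀⟩ := Filter.eventually_atTop.1 ((hMev.and hEev).and hyev)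
  obtain ⟨X₁, hX₁⟩ := Filter.eventually_atTop.1 hRev
  refine ⟨c₁ / 200, by positivity, 2 * K₀ + C₃, max (max X₁ 3) (Real.exp (50 * max Y₀ 1)),
    fun X hX => ?_⟩
  have hXX₁ : X₁ ≤ X := (le_max_left _ _).trans ((le_max_left _ _).trans hX)
  have hX3 : 3 ≤ X := (le_max_right _ _).trans ((le_max_left _ _).trans hX)
  have hXe : Real.exp (50 * max Y₀ 1) ≤ X := (le_max_right _ _).trans hX
  have hX0 : 0 < X := by linarith
  set z : ℕ := ⌈X⌉₊ with hz
  have hzX : X ≤ (z : ℝ) := Nat.le_ceil X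
  have hzX1 : (z : ℝ) ≤ X + 1 := (Nat.ceil_lt_add_one hX0.le).le
  have hz0 : (0 : ℝ) < z := by linarith
  have hz1 : (1 : ℝ) ≤ z := by linarith
  set y : ℝ := Real.log z / 50 with hy
  have hzexp : (z : ℝ) = Real.exp (50 * y) := by
    rw [hy, mul_div_cancel₀ _ (by norm_num), Real.exp_log hz0]
  have hymax : max Y₀ 1 ≤ y := by
    rw [hy, le_div_iff₀ (by norm_num), Real.le_log_iff_exp_le hz0]
    have : max Y₀ 1 * 50 = 50 * max Y₀ 1 := by ring
    rw [this]
    exact hXe.trans hzX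
  obtain ⟨⟨⟨g1, g2, g3, g4, g5, g6, g7, g8, g9, g10, g11⟩, e1, e2, e3⟩, f1, f2, f3, f4⟩ :=
    hY₀ y ((le_max_left _ _).trans hymax)
  rw [← hzexp] at e1 e2 e3 f3 f4
  have hMM1 : (HM : ℝ) ≤ M := by
    have h1 : (HM : ℝ) ≤ max (max ((HM : ℝ)) (m₀ : ℝ)) (max 2 ((F.card : ℝ) * C₃)) :=
      (le_max_left _ _).trans (le_max_left _ _)
    have h2 : (0 : ℝ) ≤ F.card := Nat.cast_nonneg _
    linarith
  have hMM2 : (m₀ : ℝ) ≤ M := by
    have h1 : (m₀ : ℝ) ≤ max (max ((HM : ℝ)) (m₀ : ℝ)) (max 2 ((F.card : ℝ) * C₃)) :=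
      (le_max_right _ _).trans (le_max_left _ _)
    have h2 : (0 : ℝ) ≤ F.card := Nat.cast_nonneg _
    linarith
  have hMM3 : (2 : ℝ) ≤ M := by
    have h1 : (2 : ℝ) ≤ max (max ((HM : ℝ)) (m₀ : ℝ)) (max 2 ((F.card : ℝ) * C₃)) :=
      (le_max_left _ _).trans (le_max_right _ _)
    have h2 : (0 : ℝ) ≤ F.card := Nat.cast_nonneg _
    linarith
  have hMM4 : (F.card : ℝ) * C₃ ≤ M := by
    have h1 : (F.card : ℝ) * C₃ ≤ max (max ((HM : ℝ)) (m₀ : ℝ)) (max 2 ((F.card : ℝ) * C₃)) :=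
      (le_max_right _ _).trans (le_max_right _ _)
    have h2 : (0 : ℝ) ≤ F.card := Nat.cast_nonneg _
    linarith
  have hy0 : 0 < y := by linarith
  have hy1 : 1 ≤ y := by linarith
  -- the length
  set T : ℕ := ⌊c₁ * Rk y⌋₊ with hT
  have hRk0 : 0 ≤ c₁ * Rk y := by linarith
  have hT1 : (T : ℝ) ≤ c₁ * Rk y := Nat.floor_le hRk0
  have hT2 : c₁ * Rk y < T + 1 := Nat.lt_floor_add_one _
  have hT' : ((T + HM : ℕ) : ℝ) ≤ 2 * (c₁ * Rk y) := by
    push_cast
    linarith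
  have hyT : y ≤ ((T + HM : ℕ) : ℝ) := by
    push_cast
    have : (0 : ℝ) ≤ HM := Nat.cast_nonneg _
    linarith
  -- the exceptional modulus
  obtain ⟨q₁, hq₁2, hpg⟩ := hpage z (by exact_mod_cast f3)
  set p₀ : ℕ := q₁.minFac with hp₀
  have hp₀p : p₀.Prime := Nat.minFac_prime (by omega)
  set ps : ℕ := if p₀ = 2 then 1 else p₀ with hps
  have hps1 : ps = p₀ ∨ (p₀ = 2 ∧ ps = 1) := by
    rw [hps]
    split_ifs with h
    · exact Or.inr ⟨h, rfl⟩
    · exact Or.inl rfl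
  have hps2 : ps = 1 ∨ (ps.Prime ∧ 2 < ps) := by
    rw [hps]
    split_ifs with h
    · exact Or.inl rfl
    · exact Or.inr ⟨hp₀p, lt_of_le_of_ne hp₀p.two_le (Ne.symm h)⟩
  -- the survivors
  set l : ℝ := Real.log y with hl
  set ll : ℝ := Real.log l with hll
  set lll : ℝ := Real.log ll with hlll
  have hSur := Sur_card F m₀ HM hHM1 y T ps (Cs * ((T + HM : ℕ) : ℝ) * ll ^ 2 / (l ^ 2 * lll))
    (fun Q hQ => hsurv y f2 (T + HM) hyT (hT'.trans g7) ps hps2 _ (hm₀ Q hQ))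
  rw [← hPW] at hSur
  have hB : Cs * ((T + HM : ℕ) : ℝ) * ll ^ 2 / (l ^ 2 * lll) ≤ 2 * Cs * c₁ * (y / l) := by
    have h1 : Rk y = y * l * lll / ll ^ 2 := rfl
    rw [div_le_iff₀ (by positivity)]
    calc Cs * ((T + HM : ℕ) : ℝ) * ll ^ 2 ≤ Cs * (2 * (c₁ * (y * l * lll / ll ^ 2))) * ll ^ 2 := by
          rw [← h1]
          gcongr
      _ = 2 * Cs * c₁ * (y / l) * (l ^ 2 * lll) := by
          have e1 : ll ^ 2 ≠ 0 := by positivity
          have e2 : l ≠ 0 := by positivity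
          have e3 : y * l * lll / ll ^ 2 * ll ^ 2 = y * l * lll := div_mul_cancel₀ _ e1
          have e4 : y / l * l = y := div_mul_cancel₀ _ e2
          calc Cs * (2 * (c₁ * (y * l * lll / ll ^ 2))) * ll ^ 2 =
              2 * Cs * c₁ * (y * l * lll / ll ^ 2 * ll ^ 2) := by ring
            _ = 2 * Cs * c₁ * (y * l * lll) := by rw [e3]
            _ = 2 * Cs * c₁ * ((y / l * l) * l * lll) := by rw [e4]
            _ = 2 * Cs * c₁ * (y / l) * (l ^ 2 * lll) := by ring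
  have hSur2 : ((Sur F m₀ y T ps).card : ℝ) * (C₃ * l) ≤ y := by
    have h1 : ((Sur F m₀ y T ps).card : ℝ) ≤ 2 * Cs * c₁ * (y / l) * PW + F.card := by
      refine hSur.trans ?_
      gcongr
    have h2 : 2 * Cs * c₁ * (y / l) * PW * (C₃ * l) ≤ y / 2 := by
      have h3 : 2 * Cs * c₁ * (y / l) * PW * (C₃ * l) = (2 * Cs * C₃ * PW * c₁) * y := by
        field_simp
      rw [h3]
      have h4 : 2 * Cs * C₃ * PW * c₁ ≤ 1 / 2 := by
        rw [hc₁, mul_one_div, div_le_iff₀ (by positivity)]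
        nlinarith [mul_pos hCs (lt_of_lt_of_le one_pos hC₃r)]
      nlinarith
    have h5 : (F.card : ℝ) * (C₃ * l) ≤ y / 2 := by
      calc (F.card : ℝ) * (C₃ * l) = (F.card * C₃) * l := by ring
        _ ≤ M * l := by gcongr
        _ ≤ y / 2 := g9
    calc ((Sur F m₀ y T ps).card : ℝ) * (C₃ * l) ≤
        (2 * Cs * c₁ * (y / l) * PW + F.card) * (C₃ * l) := by gcongr
      _ = 2 * Cs * c₁ * (y / l) * PW * (C₃ * l) + F.card * (C₃ * l) := by ring
      _ ≤ y := by linarith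
  have hSur3 : ((Sur F m₀ y T ps).card : ℝ) + 1 ≤ y := by
    have h1 : 2 * l ≤ y / 2 := by
      refine le_trans ?_ g9
      gcongr
    have h3 : ll ≤ l - 1 := Real.log_le_sub_one_of_pos (by linarith)
    have h4 : 2 ≤ l := by linarith
    have h5 : ((Sur F m₀ y T ps).card : ℝ) * 2 ≤ y := by
      refine le_trans ?_ hSur2
      have h6 : (2 : ℝ) ≤ C₃ * l := by nlinarith
      exact mul_le_mul_of_nonneg_left h6 (Nat.cast_nonneg _)
    linarith
  -- the exceptional primes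
  have hcolour : ∀ c ∈ Sur F m₀ y T ps, (Sur F m₀ y T ps).card ≤
      ((RP (c.1 + C c.2) y C₃).erase p₀).card := by
    intro c hc
    unfold Sur at hc
    rw [mem_filter, mem_product, mem_Icc] at hc
    obtain ⟨⟨h1, h2, h3⟩, h4, -⟩ := hc
    have hdeg : (c.1 + C c.2).natDegree = c.1.natDegree := natDegree_add_C
    have hk : |(c.2 : ℝ)| ≤ T := by
      rw [abs_le]
      constructor
      · have : ((-(T : ℤ) : ℤ) : ℝ) ≤ (c.2 : ℝ) := by exact_mod_cast h2
        push_cast at this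
        exact this
      · exact_mod_cast h3
    have h5 := hmany y f1 (c.1 + C c.2) (by rw [hdeg]; exact hF c.1 h1)
      (by rw [hdeg]; exact hDle c.1 h1)
      (by
        intro i hi
        rw [coeff_add, coeff_C, if_neg (by omega), add_zero]
        exact hHM3 c.1 h1 i)
      (by
        rw [coeff_add, coeff_C, if_pos rfl]
        push_cast
        refine (abs_add_le _ _).trans ?_
        have h6 := hHM3 c.1 h1 0
        have h7 : ((T + HM : ℕ) : ℝ) ≤ y ^ 2 := hT'.trans (g7.trans g8)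
        push_cast at h7
        linarith)
      (by
        rw [coeff_add, coeff_C, if_pos rfl]
        exact h4)
    have h6 := Finset.pred_card_le_card_erase (s := RP (c.1 + C c.2) y C₃) (a := p₀)
    have h7 : (((Sur F m₀ y T ps).card + 1 : ℕ) : ℝ) ≤ ((RP (c.1 + C c.2) y C₃).card : ℝ) := by
      push_cast
      linarith
    have h8 : (Sur F m₀ y T ps).card + 1 ≤ (RP (c.1 + C c.2) y C₃).card := by exact_mod_cast h7
    omega
  obtain ⟨pc, hpc, hinj⟩ := Pool.Agent.H426R3.SQ.exists_inj_choice (Sur F m₀ y T ps)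
    (fun c => (RP (c.1 + C c.2) y C₃).erase p₀) hcolour
  obtain ⟨q, b, hq0, hpq, hbq, hqle, hcore⟩ := core F m₀ hm₀1 hy1 (by linarith)
    (by linarith) g11 T C₃ hC₃1 p₀ ps hp₀p hps1 pc
    (fun c hc => by
      have := hpc c hc
      rw [mem_erase] at this
      exact ⟨this.2, this.1⟩) hinj
  -- the size of the modulus
  have hqz : (q : ℝ) ^ 16 ≤ z := by
    have h1 : (primorial ⌊y⌋₊ : ℝ) ≤ Real.exp (2 * y) := by
      have h2 : (primorial ⌊y⌋₊ : ℝ) ≤ 4 ^ ⌊y⌋₊ := by exact_mod_cast primorial_le_four_pow ⌊y⌋₊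
      refine h2.trans ?_
      have h3 : (4 : ℝ) ≤ Real.exp 2 := by
        have h4 := Real.exp_one_gt_d9
        have h5 : Real.exp 2 = Real.exp 1 * Real.exp 1 := by
          rw [← Real.exp_add]; norm_num
        rw [h5]
        nlinarith
      calc (4 : ℝ) ^ ⌊y⌋₊ ≤ (Real.exp 2) ^ ⌊y⌋₊ := by gcongr
        _ = Real.exp (2 * ⌊y⌋₊) := by rw [← Real.exp_nat_mul]; ring_nf
        _ ≤ Real.exp (2 * y) := by
            apply Real.exp_le_exp.2
            have := Nat.floor_le hy0.le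
            linarith
    have h2 : (y ^ C₃) ^ (Sur F m₀ y T ps).card ≤ Real.exp y := by
      have h3 : (y ^ C₃) ^ (Sur F m₀ y T ps).card =
          Real.exp (((Sur F m₀ y T ps).card : ℝ) * (C₃ * l)) := by
        rw [Real.exp_nat_mul, Real.exp_nat_mul, hl, Real.exp_log hy0]
      rw [h3]
      exact Real.exp_le_exp.2 hSur2
    have h3 : (q : ℝ) ≤ Real.exp (3 * y) := by
      refine hqle.trans ?_
      calc (primorial ⌊y⌋₊ : ℝ) * (y ^ C₃) ^ (Sur F m₀ y T ps).card ≤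
          Real.exp (2 * y) * Real.exp y := by
            apply mul_le_mul h1 h2 (by positivity) (Real.exp_pos _).le
        _ = Real.exp (3 * y) := by rw [← Real.exp_add]; ring_nf
    calc (q : ℝ) ^ 16 ≤ (Real.exp (3 * y)) ^ 16 := by gcongr
      _ = Real.exp (48 * y) := by rw [← Real.exp_nat_mul]; norm_num; ring_nf
      _ ≤ Real.exp (50 * y) := Real.exp_le_exp.2 (by linarith)
      _ = z := hzexp.symm
  have hq₁q : ¬ q₁ ∣ q := fun h => hpq ((Nat.minFac_dvd q₁).trans h)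
  have hpage2 := hpg q b hq0 (by exact_mod_cast hqz) hq₁q hbq
  set N : Finset ℕ := (Ioc z (z ^ K₀)).filter (fun p => p.Prime ∧ p ≡ b [MOD q]) with hN
  refine ⟨N, ?_, ?_⟩
  · -- many
    have h1 : ∑ p ∈ N, (1 : ℝ) / p ≤ N.card * (1 / z) := by
      rw [← nsmul_eq_mul]
      apply Finset.sum_le_card_nsmul
      intro p hp
      rw [hN, mem_filter, mem_Ioc] at hp
      have h2 : (z : ℝ) ≤ p := by exact_mod_cast hp.1.1.le
      gcongr
    have h2 : (q.totient : ℝ) ≤ (z : ℝ) ^ (1 / 16 : ℝ) := by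
      have h3 : (q.totient : ℝ) ≤ q := by exact_mod_cast Nat.totient_le q
      refine h3.trans ?_
      have h4 : ((q : ℝ) ^ 16) ^ ((1 : ℝ) / 16) = q := by
        rw [← Real.rpow_natCast, ← Real.rpow_mul (Nat.cast_nonneg q)]
        norm_num
      calc (q : ℝ) = ((q : ℝ) ^ 16) ^ ((1 : ℝ) / 16) := h4.symm
        _ ≤ (z : ℝ) ^ ((1 : ℝ) / 16) := Real.rpow_le_rpow (by positivity) hqz (by norm_num)
    have h3 : c₀ / (z : ℝ) ^ (1 / 16 : ℝ) ≤ c₀ / (q.totient : ℝ) := by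
      have h4 : (0 : ℝ) < q.totient := by exact_mod_cast Nat.totient_pos.2 hq0
      gcongr
    have h4 : c₀ / (z : ℝ) ^ (1 / 16 : ℝ) ≤ N.card * (1 / z) := h3.trans (hpage2.trans h1)
    have h5 : c₀ * (z : ℝ) ^ (15 / 16 : ℝ) ≤ N.card := by
      have h6 : (z : ℝ) = (z : ℝ) ^ (15 / 16 : ℝ) * (z : ℝ) ^ (1 / 16 : ℝ) := by
        rw [← Real.rpow_add hz0]; norm_num
      rw [mul_one_div, div_le_div_iff₀ (by positivity) hz0] at h4
      have h7 : (0 : ℝ) < (z : ℝ) ^ (1 / 16 : ℝ) := by positivity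
      have h8 : (c₀ * (z : ℝ) ^ (15 / 16 : ℝ)) * (z : ℝ) ^ (1 / 16 : ℝ) ≤
          N.card * (z : ℝ) ^ (1 / 16 : ℝ) := by
        rw [mul_assoc, ← h6]
        exact h4
      exact le_of_mul_le_mul_right h8 h7
    refine le_trans ?_ h5
    refine le_trans ?_ f4
    exact Real.rpow_le_rpow hX0.le hzX (by norm_num)
  · intro n hn
    rw [hN, mem_filter, mem_Ioc] at hn
    obtain ⟨⟨hn1, hn2⟩, hnp, hnb⟩ := hn
    have hnz : (z : ℝ) < n := by exact_mod_cast hn1
    refine ⟨hnp, lt_of_le_of_lt hzX hnz, ?_, ?_⟩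
    · have h1 : (n : ℝ) ≤ (z : ℝ) ^ K₀ := by exact_mod_cast hn2
      refine h1.trans ?_
      have h2 : (z : ℝ) ≤ X ^ 2 := by nlinarith
      calc (z : ℝ) ^ K₀ ≤ (X ^ 2) ^ K₀ := by gcongr
        _ = X ^ (2 * K₀) := by rw [← pow_mul]
        _ ≤ X ^ (2 * K₀ + C₃) := pow_le_pow_right₀ (by linarith) (by omega)
    · intro Q hQ
      have hyX : y ≤ Real.log X := by
        have h2 : (z : ℝ) ≤ X ^ 2 := by nlinarith
        have h3 := Real.log_le_log hz0 h2
        rw [Real.log_pow] at h3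
        push_cast at h3
        have h4 : 0 ≤ Real.log X := Real.log_nonneg (by linarith)
        rw [hy]
        linarith
      have hRR : c₁ / 200 * Rf X ≤ c₁ * Rk y := by
        have h1 := hX₁ X hXX₁ y (by
          rw [hy]
          have := Real.log_le_log hX0 hzX
          linarith) hyX
        calc c₁ / 200 * Rf X = c₁ * (1 / 200 * Rf X) := by ring
          _ ≤ c₁ * Rk y := by gcongr
      have hkey : ∀ m : ℤ, |(m : ℝ) - ((Q.eval (n : ℤ) : ℤ) : ℝ)| ≤ c₁ / 200 * Rf X →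
          (n : ℤ) ∣ m ∨ (∃ p : ℕ, p.Prime ∧ (p : ℝ) ≤ y ^ C₃ ∧ (p : ℤ) ∣ m) := by
        intro m hm
        set k : ℤ := m - Q.eval (n : ℤ) with hk
        have hkr : |(k : ℝ)| ≤ c₁ / 200 * Rf X := by
          rw [hk]
          push_cast
          exact hm
        have hkT : |(k : ℝ)| < T + 1 := lt_of_le_of_lt (hkr.trans hRR) hT2
        have hkT2 : |k| < (T : ℤ) + 1 := by exact_mod_cast hkT
        have hkI : k ∈ Icc (-(T : ℤ)) T := by
          rw [mem_Icc]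
          rw [abs_lt] at hkT2
          omega
        have hev : (Q + C k).eval (n : ℤ) = m := by
          rw [eval_add, eval_C, hk]
          ring
        have h1 := hcore n hnp hnb (by linarith) Q hQ k hkI
        rw [hev] at h1
        exact h1
      refine ⟨fun m hm => ?_, fun r hr hrn => ?_⟩
      · rcases hkey m hm with h | ⟨p, hp1, hp2, hp3⟩
        · exact Or.inl h
        · refine Or.inr ⟨p, hp1, hp2.trans ?_, hp3⟩
          calc y ^ C₃ ≤ Real.log X ^ C₃ := by gcongr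
            _ ≤ Real.log X ^ (2 * K₀ + C₃) := pow_le_pow_right₀ (by linarith) (by omega)
      · by_contra hcon
        push Not at hcon
        have hcon' : |(((r : ℤ) : ℤ) : ℝ) - ((Q.eval (n : ℤ) : ℤ) : ℝ)| ≤ c₁ / 200 * Rf X := by
          push_cast
          exact hcon
        -- the size of `r`
        have hsize : (n : ℝ) / 2 ≤ r := by
          set k : ℤ := (r : ℤ) - Q.eval (n : ℤ) with hk
          have hkr : |(k : ℝ)| ≤ c₁ / 200 * Rf X := by
            rw [hk]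
            push_cast
            exact hcon
          have hkT : |(k : ℝ)| < T + 1 := lt_of_le_of_lt (hkr.trans hRR) hT2
          have hkT2 : |k| < (T : ℤ) + 1 := by exact_mod_cast hkT
          have hkT3 : |(k : ℝ)| ≤ T := by
            have : |k| ≤ (T : ℤ) := by omega
            exact_mod_cast this
          have hdeg : (Q + C k).natDegree = Q.natDegree := natDegree_add_C
          have hev : (Q + C k).eval (n : ℤ) = (r : ℤ) := by
            rw [eval_add, eval_C, hk]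
            ring
          have h1 := eval_lower (Q + C k) hdeg (hF Q hQ) (B := y ^ 2) (by
            intro i _
            rw [coeff_add, coeff_C]
            have h6 := hHM3 Q hQ i
            have h7 : ((T + HM : ℕ) : ℝ) ≤ y ^ 2 := hT'.trans (g7.trans g8)
            push_cast at h7
            split_ifs with hi
            · push_cast
              refine (abs_add_le _ _).trans ?_
              linarith
            · push_cast
              rw [add_zero]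
              have : (0 : ℝ) ≤ T := Nat.cast_nonneg _
              linarith) n hnp.one_lt.le (by
            have h8 : (Q.natDegree : ℝ) ≤ D := by exact_mod_cast hDle Q hQ
            have h9 : 2 * ((Q.natDegree : ℝ) * y ^ 2) ≤ 2 * ((D : ℝ) * y ^ 2) := by gcongr
            linarith)
          rw [hev] at h1
          push_cast at h1
          rw [Nat.abs_cast] at h1
          exact h1
        rcases hkey r hcon' with h | ⟨p, hp1, hp2, hp3⟩
        · have h1 : n ∣ r := Int.natCast_dvd_natCast.1 h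
          exact hrn ((Nat.prime_dvd_prime_iff_eq hnp hr).1 h1).symm
        · have h1 : p ∣ r := Int.natCast_dvd_natCast.1 hp3
          have h2 : p = r := (Nat.prime_dvd_prime_iff_eq hp1 hr).1 h1
          rw [h2] at hp2
          linarith

end Pool.Agent.L7h45.PR
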