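import Pool.Agent.L7h45.PR.Sol

set_option autoImplicit false

/-! # Many primes above `y` modulo which a polynomial has a nonzero root -/

namespace Pool.Agent.L7h45.PR

open Finset Polynomial

open scoped Classical

open Pool.Agent.H426R3.SQ.N5 (geom_le fact_card mertens' sum_log)

/-- lower bound of the values of a polynomial -/
theorem eval_lower (f : ℤ[X]) {d : ℕ} (hd : f.natDegree = d) (hd1 : 1 ≤ d) {B : ℝ}
    (hB : ∀ i, i < d → |(f.coeff i : ℝ)| ≤ B) (n : ℕ) (hn1 : 1 ≤ n) (hn : 2 * (d * B) ≤ n) :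
    (n : ℝ) / 2 ≤ |((f.eval (n : ℤ) : ℤ) : ℝ)| := by
  have hn0 : (1 : ℝ) ≤ n := by exact_mod_cast hn1
  have hB0 : 0 ≤ B := (abs_nonneg _).trans (hB 0 hd1)
  have h1 : ((f.eval (n : ℤ) : ℤ) : ℝ) = ∑ i ∈ range d, (f.coeff i : ℝ) * (n : ℝ) ^ i +
      (f.coeff d : ℝ) * (n : ℝ) ^ d := by
    rw [Polynomial.eval_eq_sum_range, hd, Finset.sum_range_succ]
    push_cast
    rfl
  have hlead : (1 : ℝ) ≤ |(f.coeff d : ℝ)| := by
    have h2 : f.coeff d ≠ 0 := by
      rw [← hd]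
      have : f.leadingCoeff ≠ 0 := by
        rw [Polynomial.leadingCoeff_ne_zero]
        rintro rfl
        simp at hd
        omega
      exact this
    have h3 := Int.one_le_abs h2
    exact_mod_cast h3
  have h2 : |∑ i ∈ range d, (f.coeff i : ℝ) * (n : ℝ) ^ i| ≤ d * B * (n : ℝ) ^ (d - 1) := by
    refine (Finset.abs_sum_le_sum_abs _ _).trans ?_
    calc ∑ i ∈ range d, |(f.coeff i : ℝ) * (n : ℝ) ^ i| ≤ ∑ i ∈ range d, B * (n : ℝ) ^ (d - 1) := by
          apply Finset.sum_le_sum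
          intro i hi
          rw [mem_range] at hi
          rw [abs_mul, abs_pow, Nat.abs_cast]
          apply mul_le_mul (hB i hi) _ (by positivity) hB0
          exact pow_le_pow_right₀ hn0 (by omega)
      _ = d * B * (n : ℝ) ^ (d - 1) := by
          rw [Finset.sum_const, card_range, nsmul_eq_mul]
          ring
  have h3 : (n : ℝ) ^ d = n * (n : ℝ) ^ (d - 1) := by
    rw [← pow_succ']
    congr 1
    omega
  have h4 : (n : ℝ) ^ d ≤ |(f.coeff d : ℝ) * (n : ℝ) ^ d| := by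
    rw [abs_mul, abs_pow, Nat.abs_cast]
    exact le_mul_of_one_le_left (by positivity) hlead
  have h5 : |(f.coeff d : ℝ) * (n : ℝ) ^ d| ≤ |((f.eval (n : ℤ) : ℤ) : ℝ)| +
      |∑ i ∈ range d, (f.coeff i : ℝ) * (n : ℝ) ^ i| := by
    have h6 : (f.coeff d : ℝ) * (n : ℝ) ^ d = ((f.eval (n : ℤ) : ℤ) : ℝ) -
        ∑ i ∈ range d, (f.coeff i : ℝ) * (n : ℝ) ^ i := by rw [h1]; ring
    rw [h6]
    exact abs_sub _ _
  have hpow : 1 ≤ (n : ℝ) ^ (d - 1) := one_le_pow₀ hn0
  have h6 : (n : ℝ) / 2 * (n : ℝ) ^ (d - 1) ≤ |((f.eval (n : ℤ) : ℤ) : ℝ)| := by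
    have h7 : d * B * (n : ℝ) ^ (d - 1) ≤ (n : ℝ) / 2 * (n : ℝ) ^ (d - 1) := by
      gcongr
      linarith
    have h8 : (n : ℝ) * (n : ℝ) ^ (d - 1) ≤ |(f.coeff d : ℝ) * (n : ℝ) ^ d| := by
      rw [← h3]
      exact h4
    have h9 : (n : ℝ) * (n : ℝ) ^ (d - 1) = (n : ℝ) / 2 * (n : ℝ) ^ (d - 1) +
      (n : ℝ) / 2 * (n : ℝ) ^ (d - 1) := by ring
    linarith
  refine le_trans ?_ h6
  exact le_mul_of_one_le_right (by positivity) hpow

/-- upper bound of the values of a polynomial -/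
theorem eval_upper (f : ℤ[X]) {d : ℕ} (hd : f.natDegree = d) {B : ℝ}
    (hB : ∀ i, |(f.coeff i : ℝ)| ≤ B) (n : ℕ) (hn1 : 1 ≤ n) :
    |((f.eval (n : ℤ) : ℤ) : ℝ)| ≤ (d + 1) * B * (n : ℝ) ^ d := by
  have hn0 : (1 : ℝ) ≤ n := by exact_mod_cast hn1
  have h1 : ((f.eval (n : ℤ) : ℤ) : ℝ) = ∑ i ∈ range (d + 1), (f.coeff i : ℝ) * (n : ℝ) ^ i := by
    rw [Polynomial.eval_eq_sum_range, hd]
    push_cast
    rfl
  rw [h1]
  refine (Finset.abs_sum_le_sum_abs _ _).trans ?_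
  calc ∑ i ∈ range (d + 1), |(f.coeff i : ℝ) * (n : ℝ) ^ i| ≤
        ∑ i ∈ range (d + 1), B * (n : ℝ) ^ d := by
        apply Finset.sum_le_sum
        intro i hi
        rw [mem_range] at hi
        rw [abs_mul, abs_pow, Nat.abs_cast]
        apply mul_le_mul (hB i) _ (by positivity) ((abs_nonneg _).trans (hB i))
        exact pow_le_pow_right₀ hn0 (by omega)
    _ = (d + 1) * B * (n : ℝ) ^ d := by
        rw [Finset.sum_const, card_range, nsmul_eq_mul]
        push_cast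
        ring

/-- the primes dividing some value -/
noncomputable def PS (f : ℤ[X]) (V X : ℕ) : Finset ℕ :=
  (Icc 1 X).filter (fun p => p.Prime ∧ ∃ t ∈ Icc 1 V, p ∣ G f V t)

theorem mem_PS {f : ℤ[X]} {V X p : ℕ} : p ∈ PS f V X ↔
    (1 ≤ p ∧ p ≤ X) ∧ p.Prime ∧ ∃ t ∈ Icc 1 V, p ∣ G f V t := by
  unfold PS
  simp only [Finset.mem_filter, Finset.mem_Icc]

theorem main_ineq (f : ℤ[X]) {d : ℕ} (hd : f.natDegree = d) (hd1 : 1 ≤ d)
    (V X : ℕ) (hV : 1 ≤ V) (hX1 : 1 ≤ X)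
    (hlow : ∀ t ∈ Icc 1 V, (V : ℝ) / 2 ≤ G f V t)
    (hX : ∀ t ∈ Icc 1 V, G f V t ≤ X) :
    V * (Real.log V - Real.log 2) ≤ V * Real.log (f.leadingCoeff.natAbs : ℝ) +
      ∑ p ∈ PS f V X, (d ^ 2 * V * (Real.log p / (p - 1)) + d * Real.log X) := by
  have hV0 : (0 : ℝ) < V := by exact_mod_cast hV
  have hn0 : ∀ t ∈ Icc 1 V, G f V t ≠ 0 := by
    intro t ht h0
    have := hlow t ht
    rw [h0] at this
    simp only [Nat.cast_zero] at this
    linarith
  have h1 : V * (Real.log V - Real.log 2) ≤ ∑ t ∈ Icc 1 V, Real.log (G f V t) := by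
    calc V * (Real.log V - Real.log 2) = ∑ t ∈ Icc 1 V, (Real.log V - Real.log 2) := by
          rw [Finset.sum_const, nsmul_eq_mul]; simp
      _ ≤ _ := by
          apply Finset.sum_le_sum
          intro t ht
          rw [← Real.log_div hV0.ne' (by norm_num)]
          exact Real.log_le_log (by positivity) (hlow t ht)
  have h3 : ∀ t ∈ Icc 1 V, Real.log (G f V t) =
      ∑ p ∈ PS f V X, ((G f V t).factorization p : ℝ) * Real.log p := by
    intro t ht
    rw [Real.log_nat_eq_sum_factorization, Finsupp.sum]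
    refine Finset.sum_subset ?_ ?_
    · intro p hp
      rw [Nat.support_factorization, Nat.mem_primeFactors] at hp
      obtain ⟨h4, h5, h6⟩ := hp
      refine mem_PS.2 ⟨⟨h4.one_lt.le, (Nat.le_of_dvd (Nat.pos_of_ne_zero h6) h5).trans (hX t ht)⟩,
        h4, t, ht, h5⟩
    · intro p _ hp
      rw [Finsupp.notMem_support_iff] at hp
      rw [hp]
      simp
  have h4 : ∑ t ∈ Icc 1 V, Real.log (G f V t) ≤
      ∑ p ∈ PS f V X, (V * ((f.leadingCoeff.natAbs.factorization p : ℝ) * Real.log p) +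
        (d ^ 2 * V * (Real.log p / (p - 1)) + d * Real.log X)) := by
    calc ∑ t ∈ Icc 1 V, Real.log (G f V t)
        = ∑ t ∈ Icc 1 V, ∑ p ∈ PS f V X, ((G f V t).factorization p : ℝ) * Real.log p :=
          Finset.sum_congr rfl h3
      _ = ∑ p ∈ PS f V X, ∑ t ∈ Icc 1 V, ((G f V t).factorization p : ℝ) * Real.log p :=
          Finset.sum_comm
      _ ≤ _ := by
          refine Finset.sum_le_sum fun p hp => ?_
          exact per_prime (mem_PS.1 hp).2.1 f hd hd1 V X hX1 hn0 hX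
  have h5 : ∑ p ∈ PS f V X, ((f.leadingCoeff.natAbs.factorization p : ℝ) * Real.log p) ≤
      Real.log (f.leadingCoeff.natAbs : ℝ) := by
    rw [Real.log_nat_eq_sum_factorization, Finsupp.sum]
    have h6 : ∑ p ∈ PS f V X, ((f.leadingCoeff.natAbs.factorization p : ℝ) * Real.log p) =
        ∑ p ∈ PS f V X with p ∈ f.leadingCoeff.natAbs.factorization.support,
          ((f.leadingCoeff.natAbs.factorization p : ℝ) * Real.log p) := by
      rw [Finset.sum_filter]
      apply Finset.sum_congr rfl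
      intro p _
      split_ifs with h
      · rfl
      · rw [Finsupp.notMem_support_iff] at h
        rw [h]
        simp
    rw [h6]
    apply Finset.sum_le_sum_of_subset_of_nonneg
    · intro p hp
      exact (mem_filter.1 hp).2
    · intro p hp _
      have : 0 ≤ Real.log (p : ℝ) := Real.log_natCast_nonneg p
      positivity
  rw [Finset.sum_add_distrib, ← Finset.mul_sum] at h4
  have h6 := mul_le_mul_of_nonneg_left h5 hV0.le
  linarith

/-- the primes above `y` modulo which `f` has a nonzero root -/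
noncomputable def RP (f : ℤ[X]) (y : ℝ) (C : ℕ) : Finset ℕ :=
  (Finset.Icc 1 ⌊y ^ C⌋₊).filter (fun p : ℕ => p.Prime ∧ y < (p : ℝ) ∧
    ∃ t : ℤ, (p : ℤ) ∣ f.eval t ∧ ¬ (p : ℤ) ∣ t)

/-- at most `2` primes above `y` divide a nonzero integer of size at most `y ^ 2` -/
theorem card_div_le {y : ℝ} (hy : 1 < y) {k : ℤ} (hk : k ≠ 0) (hky : |(k : ℝ)| ≤ y ^ 2)
    (S : Finset ℕ) (hS : ∀ p ∈ S, p.Prime ∧ y < (p : ℝ) ∧ (p : ℤ) ∣ k) : S.card ≤ 2 := by
  by_contra hcon
  push Not at hcon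
  have h1 : (∏ p ∈ S, p) ∣ k.natAbs := by
    apply Finset.prod_primes_dvd
    · intro p hp
      exact (hS p hp).1.prime
    · intro p hp
      exact Int.natCast_dvd.1 (hS p hp).2.2
  have h2 := Nat.le_of_dvd (Int.natAbs_pos.2 hk) h1
  have h3 : (∏ p ∈ S, (p : ℝ)) ≤ |(k : ℝ)| := by
    have h4 : ((∏ p ∈ S, p : ℕ) : ℝ) ≤ (k.natAbs : ℝ) := by exact_mod_cast h2
    rw [Nat.cast_natAbs] at h4
    push_cast at h4
    exact h4
  have h4 : y ^ 3 ≤ ∏ p ∈ S, (p : ℝ) := by
    calc y ^ 3 ≤ y ^ S.card := pow_le_pow_right₀ hy.le hcon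
      _ = ∏ p ∈ S, y := by rw [Finset.prod_const]
      _ ≤ ∏ p ∈ S, (p : ℝ) := Finset.prod_le_prod (fun p _ => by linarith)
          (fun p hp => (hS p hp).2.1.le)
  have h5 : y ^ 2 < y ^ 3 := pow_lt_pow_right₀ hy (by norm_num)
  linarith

theorem many (D : ℕ) (hD : 1 ≤ D) (H : ℝ) : ∃ C₃ : ℕ, 1 ≤ C₃ ∧ ∃ y₀ : ℝ, ∀ y : ℝ, y₀ ≤ y →
    ∀ f : ℤ[X], 1 ≤ f.natDegree → f.natDegree ≤ D → (∀ i, 1 ≤ i → |(f.coeff i : ℝ)| ≤ H) →
    |(f.coeff 0 : ℝ)| ≤ y ^ 2 → f.coeff 0 ≠ 0 → y ≤ ((RP f y C₃).card : ℝ) := by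
  obtain ⟨C, hC0, hC⟩ := mertens'
  set A : ℕ := 9 * D ^ 2 + 9 with hA
  set C₃ : ℕ := (A + 1) * D + 3 with hC₃
  refine ⟨C₃, by omega, max (max (100 + 10 * D + |H|) (2 ^ (A + 1)))
    (Real.exp (2 + C + Real.log (1 + |H|))), fun y hy f hd1 hdD hH h0y h00 => ?_⟩
  set d := f.natDegree with hd
  have hD1 : (1 : ℝ) ≤ D := by exact_mod_cast hD
  have hdr : (1 : ℝ) ≤ d := by exact_mod_cast hd1
  have hdDr : (d : ℝ) ≤ D := by exact_mod_cast hdD
  have hyD : (100 + 10 * D + |H| : ℝ) ≤ y := (le_max_left _ _).trans ((le_max_left _ _).trans hy)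
  have hy2A : (2 : ℝ) ^ (A + 1) ≤ y := (le_max_right _ _).trans ((le_max_left _ _).trans hy)
  have hHa : 0 ≤ |H| := abs_nonneg H
  have hy100 : (100 : ℝ) ≤ y := by linarith
  have hy0 : (0 : ℝ) < y := by linarith
  have hy1 : (1 : ℝ) ≤ y := by linarith
  have hyL : 2 + C + Real.log (1 + |H|) ≤ Real.log y := by
    rw [Real.le_log_iff_exp_le hy0]
    exact (le_max_right _ _).trans hy
  have hlH : 0 ≤ Real.log (1 + |H|) := Real.log_nonneg (by linarith)
  set L := Real.log y with hL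
  have hL0 : 0 < L := by linarith
  have hLy : L ≤ y := (Real.log_le_sub_one_of_pos hy0).trans (by linarith)
  set V : ℕ := ⌈y⌉₊ ^ A with hV
  set X : ℕ := ⌊y ^ C₃⌋₊ with hX
  have hA5 : 5 ≤ A := by omega
  have hc1 : y ≤ (⌈y⌉₊ : ℝ) := Nat.le_ceil y
  have hc2 : (⌈y⌉₊ : ℝ) ≤ 2 * y := by
    have := Nat.ceil_lt_add_one hy0.le
    linarith
  have hV1 : y ^ A ≤ (V : ℝ) := by
    rw [hV]; push_cast
    gcongr
  have hV5 : y ^ 5 ≤ (V : ℝ) := (pow_le_pow_right₀ hy1 hA5).trans hV1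
  have hV2 : 2 * (V : ℝ) ≤ y ^ (A + 1) := by
    rw [hV]; push_cast
    calc 2 * (⌈y⌉₊ : ℝ) ^ A ≤ 2 * (2 * y) ^ A := by gcongr
      _ = 2 ^ (A + 1) * y ^ A := by rw [mul_pow]; ring
      _ ≤ y * y ^ A := by gcongr
      _ = y ^ (A + 1) := by ring
  have hVpos : (0 : ℝ) < V := lt_of_lt_of_le (by positivity) hV1
  have hVn : 1 ≤ V := by exact_mod_cast hVpos
  have hXr : (X : ℝ) ≤ y ^ C₃ := Nat.floor_le (by positivity)
  have hX1 : 1 ≤ X := by
    rw [hX, Nat.one_le_floor_iff]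
    exact one_le_pow₀ (by linarith)
  -- the coefficients
  have hco : ∀ i, |(f.coeff i : ℝ)| ≤ y ^ 2 := by
    intro i
    rcases Nat.eq_zero_or_pos i with rfl | hi
    · exact h0y
    · refine (hH i hi).trans ((le_abs_self H).trans ?_)
      have : y ≤ y ^ 2 := by nlinarith
      linarith
  have hGlow : ∀ t ∈ Icc 1 V, (V : ℝ) / 2 ≤ G f V t := by
    intro t ht
    have h1 := (Finset.mem_Icc.1 ht).1
    have h2 := eval_lower f rfl hd1 (fun i _ => hco i) (V + t) (by omega) (by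
      have h3 : 2 * ((d : ℝ) * y ^ 2) ≤ y ^ 5 := by
        calc 2 * ((d : ℝ) * y ^ 2) ≤ y * (y * y ^ 2) := by gcongr <;> linarith
          _ = y ^ 4 := by ring
          _ ≤ y ^ 5 := pow_le_pow_right₀ hy1 (by norm_num)
      have h4 : (0 : ℝ) ≤ t := Nat.cast_nonneg t
      push_cast
      linarith)
    unfold G
    rw [Nat.cast_natAbs]
    push_cast at h2 ⊢
    have h4 : (0 : ℝ) ≤ t := Nat.cast_nonneg t
    refine le_trans ?_ h2
    linarith
  have hnX : ∀ t ∈ Icc 1 V, G f V t ≤ X := by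
    intro t ht
    apply Nat.le_floor
    have h1 := (Finset.mem_Icc.1 ht)
    have h2 := eval_upper f rfl hco (V + t) (by omega)
    unfold G
    rw [Nat.cast_natAbs]
    push_cast at h2 ⊢
    refine h2.trans ?_
    have h3 : (t : ℝ) ≤ V := by exact_mod_cast h1.2
    have h4 : ((V : ℝ) + t) ≤ y ^ (A + 1) := by linarith
    calc ((d : ℝ) + 1) * y ^ 2 * ((V : ℝ) + t) ^ d ≤ y * y ^ 2 * (y ^ (A + 1)) ^ D := by
          apply mul_le_mul
          · gcongr
            linarith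
          · calc ((V : ℝ) + t) ^ d ≤ (y ^ (A + 1)) ^ d := by gcongr
              _ ≤ (y ^ (A + 1)) ^ D := pow_le_pow_right₀ (one_le_pow₀ hy1) hdD
          · positivity
          · positivity
      _ = y ^ C₃ := by
          rw [← pow_mul, hC₃]
          ring
  have hlogX : Real.log X ≤ C₃ * L := by
    have h1 := Real.log_le_log (by exact_mod_cast hX1) hXr
    rw [Real.log_pow] at h1
    exact h1
  have hlogX0 : 0 ≤ Real.log X := Real.log_nonneg (by exact_mod_cast hX1)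
  have hC₃y : (C₃ : ℝ) ≤ y := by
    refine le_trans ?_ hy2A
    have h1 : C₃ ≤ 2 ^ (A + 1) := by
      have h2 : A + 1 < 2 ^ (A + 1) := Nat.lt_two_pow_self
      have h3 : (A + 1) * D + 3 ≤ 2 ^ (A + 1) := by
        have h4 : D ≤ A := by nlinarith
        have h5 : ∀ m : ℕ, 19 ≤ m → m * m + 3 ≤ 2 ^ m := by
          intro m hm
          induction m, hm using Nat.le_induction with
          | base => norm_num
          | succ m hm ih =>
            rw [pow_succ]
            nlinarith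
        have h6 := h5 (A + 1) (by
          have : 1 ≤ D ^ 2 := Nat.one_le_pow _ _ hD
          omega)
        have h7 : (A + 1) * D ≤ (A + 1) * (A + 1) := Nat.mul_le_mul_left _ (by omega)
        omega
      exact h3
    exact_mod_cast h1
  have hlogXy : Real.log X ≤ y * L := by
    refine hlogX.trans ?_
    gcongr
  have hmain := main_ineq f rfl hd1 V X hVn hX1 hGlow hnX
  rw [← hd] at hmain
  have hlogV : A * L ≤ Real.log V := by
    have h1 := Real.log_le_log (by positivity) hV1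
    rw [Real.log_pow] at h1
    exact_mod_cast h1
  have hlead : Real.log (f.leadingCoeff.natAbs : ℝ) ≤ Real.log (1 + |H|) := by
    have h1 : (f.leadingCoeff.natAbs : ℝ) = |(f.coeff d : ℝ)| := by
      rw [Nat.cast_natAbs]
      push_cast
      rfl
    rw [h1]
    have h2 := hH d hd1
    have h3 : 0 < |(f.coeff d : ℝ)| := by
      rw [abs_pos]
      have : f.leadingCoeff ≠ 0 := by
        rw [Polynomial.leadingCoeff_ne_zero]
        intro h
        rw [h] at hd
        simp at hd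
        omega
      exact_mod_cast this
    apply Real.log_le_log h3
    have := le_abs_self H
    linarith
  set S := PS f V X with hS
  set S1 := S.filter (fun p : ℕ => (p : ℝ) ≤ y) with hS1
  set S2 := S.filter (fun p : ℕ => ¬ (p : ℝ) ≤ y) with hS2
  have hsplit := Finset.sum_filter_add_sum_filter_not S (fun p : ℕ => (p : ℝ) ≤ y)
    (fun p : ℕ => ((d : ℝ) ^ 2 * V * (Real.log p / (p - 1)) + d * Real.log X))
  rw [← hS1, ← hS2] at hsplit
  -- small primes
  have hN1 : 1 ≤ ⌊y⌋₊ := by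
    rw [Nat.one_le_floor_iff]; linarith
  have hsub1 : S1 ⊆ (Icc 1 ⌊y⌋₊).filter Nat.Prime := by
    intro p hp
    obtain ⟨h1, h2⟩ := Finset.mem_filter.1 hp
    obtain ⟨h3, h4, -⟩ := mem_PS.1 h1
    rw [Finset.mem_filter, Finset.mem_Icc]
    exact ⟨⟨h3.1, Nat.le_floor h2⟩, h4⟩
  have hnn : ∀ p : ℕ, p.Prime → 0 ≤ Real.log p / ((p : ℝ) - 1) := by
    intro p hp
    have hp1 : (1 : ℝ) < p := by exact_mod_cast hp.one_lt
    exact div_nonneg (Real.log_nonneg hp1.le) (by linarith)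
  have hb1 : ∑ p ∈ S1, ((d : ℝ) ^ 2 * V * (Real.log p / (p - 1)) + d * Real.log X) ≤
      d ^ 2 * V * (L + C) + d * (y * (y * L)) := by
    calc ∑ p ∈ S1, ((d : ℝ) ^ 2 * V * (Real.log p / (p - 1)) + d * Real.log X) ≤
        ∑ p ∈ (Icc 1 ⌊y⌋₊).filter Nat.Prime,
          ((d : ℝ) ^ 2 * V * (Real.log p / (p - 1)) + d * Real.log X) := by
          refine Finset.sum_le_sum_of_subset_of_nonneg hsub1 ?_
          intro p hp _
          have := hnn p (Finset.mem_filter.1 hp).2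
          positivity
      _ = d ^ 2 * V * ∑ p ∈ (Icc 1 ⌊y⌋₊).filter Nat.Prime, (Real.log p / (p - 1)) +
          d * ((((Icc 1 ⌊y⌋₊).filter Nat.Prime).card : ℝ) * (Real.log X)) := by
          rw [Finset.sum_add_distrib, ← Finset.mul_sum, Finset.sum_const, nsmul_eq_mul]
          ring
      _ ≤ d ^ 2 * V * (L + C) + d * (y * (y * L)) := by
          have h1 := hC ⌊y⌋₊ hN1
          have h2 : Real.log (⌊y⌋₊ : ℝ) ≤ L :=
            Real.log_le_log (by exact_mod_cast hN1) (Nat.floor_le hy0.le)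
          have h3 : (((Icc 1 ⌊y⌋₊).filter Nat.Prime).card : ℝ) ≤ y := by
            have h4 : ((Icc 1 ⌊y⌋₊).filter Nat.Prime).card ≤ ⌊y⌋₊ := by
              refine (Finset.card_filter_le _ _).trans ?_
              simp
            calc (((Icc 1 ⌊y⌋₊).filter Nat.Prime).card : ℝ) ≤ (⌊y⌋₊ : ℝ) := by exact_mod_cast h4
              _ ≤ y := Nat.floor_le hy0.le
          have h5 : ∑ p ∈ (Icc 1 ⌊y⌋₊).filter Nat.Prime, (Real.log p / ((p : ℝ) - 1)) ≤ L + C := by
            linarith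
          gcongr
  -- large primes
  have hb2 : ∑ p ∈ S2, ((d : ℝ) ^ 2 * V * (Real.log p / (p - 1)) + d * Real.log X) ≤
      (S2.card : ℝ) * (3 * (d : ℝ) ^ 2 * V * L / y) := by
    have hnsm := Finset.sum_le_card_nsmul S2 (fun p : ℕ => ((d : ℝ) ^ 2 * V *
      (Real.log p / (p - 1)) + d * Real.log X)) (3 * (d : ℝ) ^ 2 * V * L / y) ?_
    · rw [nsmul_eq_mul] at hnsm
      exact hnsm
    intro p hp
    have h1 : y < (p : ℝ) := not_le.1 (Finset.mem_filter.1 hp).2
    have hp0 : (0 : ℝ) < p := by linarith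
    have h2 : Real.log p / p ≤ L / y := by
      have he : Real.exp 1 ≤ y := by
        have := Real.exp_one_lt_d9
        linarith
      exact Real.log_div_self_antitoneOn he (he.trans h1.le) h1.le
    have hlp : 0 ≤ Real.log p := Real.log_nonneg (by linarith)
    have h3 : Real.log p / (p - 1) ≤ 2 * (L / y) := by
      calc Real.log p / ((p : ℝ) - 1) ≤ Real.log p / ((p : ℝ) / 2) := by
            apply div_le_div_of_nonneg_left hlp (by positivity)
            linarith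
        _ = 2 * (Real.log p / p) := by field_simp
        _ ≤ _ := by gcongr
    have h4 : y * L ≤ V * (L / y) := by
      have h5 : y * y ≤ (V : ℝ) := by
        refine le_trans ?_ hV5
        have : y ^ 2 ≤ y ^ 5 := pow_le_pow_right₀ hy1 (by norm_num)
        nlinarith
      calc y * L = (y * y) * (L / y) := by field_simp
        _ ≤ V * (L / y) := by gcongr
    have h6 : (d : ℝ) ≤ (d : ℝ) ^ 2 := by nlinarith
    have h7 : (0 : ℝ) ≤ (V : ℝ) * (L / y) := by positivity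
    calc (d : ℝ) ^ 2 * V * (Real.log p / ((p : ℝ) - 1)) + d * Real.log X ≤
        d ^ 2 * V * (2 * (L / y)) + d ^ 2 * (y * L) := by gcongr
      _ ≤ d ^ 2 * V * (2 * (L / y)) + d ^ 2 * (V * (L / y)) := by gcongr
      _ = 3 * d ^ 2 * V * L / y := by ring
  -- the primes in `S2` which divide the constant coefficient
  set S3 := S2.filter (fun p : ℕ => (p : ℤ) ∣ f.coeff 0) with hS3
  have hS3c : S3.card ≤ 2 := by
    apply card_div_le (by linarith : 1 < y) h00 h0y
    intro p hp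
    obtain ⟨h1, h2⟩ := Finset.mem_filter.1 hp
    obtain ⟨h3, h4⟩ := Finset.mem_filter.1 h1
    exact ⟨(mem_PS.1 h3).2.1, not_le.1 h4, h2⟩
  have hsub2 : S2 \ S3 ⊆ RP f y C₃ := by
    intro p hp
    obtain ⟨h1, h2⟩ := Finset.mem_sdiff.1 hp
    obtain ⟨h3, h4⟩ := Finset.mem_filter.1 h1
    obtain ⟨h5, h6, t, -, h7⟩ := mem_PS.1 h3
    unfold RP
    rw [Finset.mem_filter, Finset.mem_Icc]
    refine ⟨h5, h6, not_le.1 h4, ((V + t : ℕ) : ℤ), Int.natCast_dvd.2 h7, ?_⟩
    intro h8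
    apply h2
    rw [hS3, Finset.mem_filter]
    refine ⟨h1, ?_⟩
    have h9 : (p : ℤ) ∣ f.eval ((V + t : ℕ) : ℤ) := Int.natCast_dvd.2 h7
    have h10 : ((V + t : ℕ) : ℤ) ∣ f.eval ((V + t : ℕ) : ℤ) - f.coeff 0 := by
      have h11 := Polynomial.sub_dvd_eval_sub ((V + t : ℕ) : ℤ) 0 f
      rw [sub_zero, ← Polynomial.coeff_zero_eq_eval_zero] at h11
      exact h11
    have h12 := h8.trans h10
    exact (dvd_sub_right h9).1 h12
  have hcard : (S2.card : ℝ) - 2 ≤ ((RP f y C₃).card : ℝ) := by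
    have h1 := Finset.card_le_card hsub2
    have h2 := Finset.card_sdiff_add_card S2 S3
    have h3 : S2.card ≤ (S2 ∪ S3).card := Finset.card_le_card Finset.subset_union_left
    have h4 : S2.card ≤ (RP f y C₃).card + 2 := by omega
    have h5 : (S2.card : ℝ) ≤ (RP f y C₃).card + 2 := by exact_mod_cast h4
    linarith
  have hd2 : (1 : ℝ) ≤ (d : ℝ) ^ 2 := one_le_pow₀ hdr
  have h1 : V * (A * L - 1) ≤ V * Real.log (1 + |H|) + (d ^ 2 * V * (L + C) + d * (y * (y * L))) +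
      (S2.card : ℝ) * (3 * d ^ 2 * V * L / y) := by
    have h2 : V * (A * L - 1) ≤ V * (Real.log V - Real.log 2) := by
      have : Real.log 2 ≤ 1 := by
        have := Real.log_two_lt_d9
        linarith
      gcongr
    have h3 : (V : ℝ) * Real.log (f.leadingCoeff.natAbs : ℝ) ≤ V * Real.log (1 + |H|) := by gcongr
    linarith
  have h2 : (d : ℝ) * (y * (y * L)) ≤ V * d ^ 2 := by
    have h3 : y * (y * L) ≤ V := by
      refine le_trans ?_ hV5
      calc y * (y * L) ≤ y * (y * y) := by gcongr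
        _ = y ^ 3 := by ring
        _ ≤ y ^ 5 := pow_le_pow_right₀ hy1 (by norm_num)
    calc (d : ℝ) * (y * (y * L)) ≤ d * V := by gcongr
      _ ≤ d ^ 2 * V := by
          gcongr
          nlinarith
      _ = V * d ^ 2 := by ring
  have h3 : (V : ℝ) * (A * L - 1 - Real.log (1 + |H|) - d ^ 2 * (L + C + 1)) ≤
      V * ((S2.card : ℝ) * (3 * d ^ 2 * L / y)) := by
    have h4 : (S2.card : ℝ) * (3 * d ^ 2 * V * L / y) = V * ((S2.card : ℝ) * (3 * d ^ 2 * L / y)) := by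
      ring
    rw [h4] at h1
    nlinarith
  have h4 : A * L - 1 - Real.log (1 + |H|) - d ^ 2 * (L + C + 1) ≤
      (S2.card : ℝ) * (3 * d ^ 2 * L / y) := le_of_mul_le_mul_left h3 hVpos
  have h5 : 6 * d ^ 2 * L ≤ A * L - 1 - Real.log (1 + |H|) - d ^ 2 * (L + C + 1) := by
    have e1 : (9 * (d : ℝ) ^ 2 + 9) ≤ A := by
      rw [hA]
      push_cast
      gcongr
    have e2 : (9 * (d : ℝ) ^ 2 + 9) * L ≤ A * L := by gcongr
    have e3 : (d : ℝ) ^ 2 * (L + C + 1) ≤ d ^ 2 * (2 * L) := by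
      gcongr
      linarith
    nlinarith
  have h6 : 6 * (d : ℝ) ^ 2 * L * y ≤ (S2.card : ℝ) * (3 * d ^ 2 * L) := by
    have h7 : (S2.card : ℝ) * (3 * d ^ 2 * L / y) * y = (S2.card : ℝ) * (3 * d ^ 2 * L) := by
      field_simp
    rw [← h7]
    exact mul_le_mul_of_nonneg_right (h5.trans h4) hy0.le
  have h7 : (3 * (d : ℝ) ^ 2 * L) * (2 * y) ≤ (3 * d ^ 2 * L) * (S2.card : ℝ) := by linarith
  have h8 : 2 * y ≤ (S2.card : ℝ) := le_of_mul_le_mul_left h7 (by positivity)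
  linarith

end Pool.Agent.L7h45.PR
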