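import Pool.Agent.L7h45.PR.Cong
import Pool.Agent.W154.PV.Many1
import Pool.Agent.H426R3.SQ.N5

set_option autoImplicit false

/-! # The prime divisors of the values of a polynomial -/

namespace Pool.Agent.L7h45.PR

open Finset Polynomial

open scoped Classical

open Pool.Agent.H426R3.SQ.N5 (geom_le fact_card mertens' sum_log)

theorem sum_Icc_range (K : ℕ) (g : ℕ → ℝ) : ∑ i ∈ Icc 1 K, g i = ∑ i ∈ range K, g (i + 1) := by
  induction K with
  | zero => simp
  | succ K ih => rw [Finset.sum_Icc_succ_top (by omega), ih, Finset.sum_range_succ]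

/-- the values -/
noncomputable def G (f : ℤ[X]) (V t : ℕ) : ℕ := (f.eval ((V + t : ℕ) : ℤ)).natAbs

theorem card_sol {p : ℕ} (hp : p.Prime) (f : ℤ[X]) {d α m : ℕ} (hd : f.natDegree = d)
    (hd1 : 1 ≤ d) (hα : ¬ ((p : ℤ) ^ (α + 1)) ∣ f.leadingCoeff) (V : ℕ) :
    (((Icc 1 V).filter (fun t => p ^ (α + (m + 1)) ∣ G f V t)).card : ℝ) ≤
      d * (V * (1 / (p : ℝ) ^ (m / d + 1)) + 1) := by
  set A := (Icc 1 V).filter (fun t => p ^ (α + (m + 1)) ∣ G f V t) with hA
  set q := p ^ (m / d + 1) with hq
  have h1 : ((A.image (fun t => V + t)).image (fun n => n % q)).card ≤ d := by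
    refine card_classes hp f hd hα (e := α + (m + 1)) ?_ _ ?_
    · have := Nat.mul_div_le m d
      omega
    · intro n hn
      rw [Finset.mem_image] at hn
      obtain ⟨t, ht, rfl⟩ := hn
      rw [hA, Finset.mem_filter] at ht
      have h2 := ht.2
      unfold G at h2
      have h3 := Int.natCast_dvd.2 h2
      push_cast at h3 ⊢
      exact h3
  rw [Finset.image_image] at h1
  have h2 := card_le_mul_card_image (f := (fun n => n % q) ∘ (fun t => V + t)) A (V / q + 1) (by
    intro r _
    apply Pool.Agent.W154.PV.card_congr_class V q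
    · exact (filter_subset _ _).trans (filter_subset _ _)
    · intro s hs t ht
      rw [mem_filter] at hs ht
      have h3 : (V + s) % q = (V + t) % q := hs.2.trans ht.2.symm
      exact Nat.ModEq.add_left_cancel' V h3)
  have h3 : A.card ≤ (V / q + 1) * d := h2.trans (Nat.mul_le_mul_left _ h1)
  have h4 : ((V / q : ℕ) : ℝ) ≤ V / (p : ℝ) ^ (m / d + 1) := by
    have := @Nat.cast_div_le ℝ _ _ _ V q
    rw [hq] at this ⊢
    push_cast at this
    exact this
  calc (A.card : ℝ) ≤ (((V / q + 1) * d : ℕ) : ℝ) := by exact_mod_cast h3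
    _ = (((V / q : ℕ) : ℝ) + 1) * d := by push_cast; ring
    _ ≤ (V / (p : ℝ) ^ (m / d + 1) + 1) * d := by gcongr
    _ = d * (V * (1 / (p : ℝ) ^ (m / d + 1)) + 1) := by ring

theorem sum_div_le (d K : ℕ) (hd : 1 ≤ d) (g : ℕ → ℝ) (hg : ∀ j, 0 ≤ g j) :
    ∑ m ∈ range K, g (m / d) ≤ d * ∑ j ∈ range K, g j := by
  have hmap : ∀ m ∈ range K, m / d ∈ range K := by
    intro m hm
    rw [mem_range] at hm ⊢
    exact lt_of_le_of_lt (Nat.div_le_self m d) hm
  rw [← Finset.sum_fiberwise_of_maps_to hmap, Finset.mul_sum]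
  apply Finset.sum_le_sum
  intro j _
  have h1 : ∑ m ∈ range K with m / d = j, g (m / d) = ∑ m ∈ range K with m / d = j, g j := by
    apply Finset.sum_congr rfl
    intro m hm
    rw [(mem_filter.1 hm).2]
  rw [h1, Finset.sum_const, nsmul_eq_mul]
  have h2 : ((range K).filter (fun m => m / d = j)).card ≤ d := by
    calc ((range K).filter (fun m => m / d = j)).card ≤ (Finset.Ico (d * j) (d * j + d)).card := by
          apply card_le_card
          intro m hm
          have h3 := (mem_filter.1 hm).2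
          rw [Finset.mem_Ico]
          have h4 := Nat.div_add_mod m d
          have h5 := Nat.mod_lt m (show 0 < d by omega)
          rw [h3] at h4
          omega
      _ = d := by simp
  have h3 : (((range K).filter (fun m => m / d = j)).card : ℝ) ≤ d := by exact_mod_cast h2
  exact mul_le_mul_of_nonneg_right h3 (hg j)

theorem per_prime {p : ℕ} (hp : p.Prime) (f : ℤ[X]) {d : ℕ} (hd : f.natDegree = d)
    (hd1 : 1 ≤ d) (V X : ℕ) (hX1 : 1 ≤ X)
    (hn0 : ∀ t ∈ Icc 1 V, G f V t ≠ 0) (hX : ∀ t ∈ Icc 1 V, G f V t ≤ X) :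
    ∑ t ∈ Icc 1 V, ((G f V t).factorization p : ℝ) * Real.log p ≤
      V * ((f.leadingCoeff.natAbs.factorization p : ℝ) * Real.log p) +
        (d ^ 2 * V * (Real.log p / (p - 1)) + d * Real.log X) := by
  have hf0 : f.leadingCoeff ≠ 0 := by
    rw [Polynomial.leadingCoeff_ne_zero]
    rintro rfl
    simp at hd
    omega
  set α := f.leadingCoeff.natAbs.factorization p with hα
  have hα1 : ¬ ((p : ℤ) ^ (α + 1)) ∣ f.leadingCoeff := by
    intro h
    have h1 : p ^ (α + 1) ∣ f.leadingCoeff.natAbs := by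
      have h2 : (((p ^ (α + 1) : ℕ)) : ℤ) ∣ f.leadingCoeff := by push_cast; exact h
      exact Int.natCast_dvd.1 h2
    exact Nat.pow_succ_factorization_not_dvd (Int.natAbs_ne_zero.2 hf0) hp h1
  have hp1 : (1 : ℝ) < p := by exact_mod_cast hp.one_lt
  have hlp : 0 < Real.log p := Real.log_pos hp1
  set K := Nat.log p X with hK
  have h1 : ∑ t ∈ Icc 1 V, ((G f V t).factorization p : ℝ) =
      ∑ i ∈ range K, (((Icc 1 V).filter (fun t => p ^ (i + 1) ∣ G f V t)).card : ℝ) := by
    have h2 : ∀ t ∈ Icc 1 V, ((G f V t).factorization p : ℝ) =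
        ∑ i ∈ range K, (if p ^ (i + 1) ∣ G f V t then (1 : ℝ) else 0) := by
      intro t ht
      rw [fact_card hp (hn0 t ht) (hX t ht), Finset.card_filter]
      push_cast
      exact sum_Icc_range K (fun i => if p ^ i ∣ G f V t then (1 : ℝ) else 0)
    rw [Finset.sum_congr rfl h2, Finset.sum_comm]
    refine Finset.sum_congr rfl fun i _ => ?_
    rw [Finset.card_filter]
    push_cast
    rfl
  have h3 : ∑ i ∈ range K, (((Icc 1 V).filter (fun t => p ^ (i + 1) ∣ G f V t)).card : ℝ) ≤
      α * V + (d ^ 2 * V * (1 / ((p : ℝ) - 1)) + d * K) := by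
    calc ∑ i ∈ range K, (((Icc 1 V).filter (fun t => p ^ (i + 1) ∣ G f V t)).card : ℝ) ≤
        ∑ i ∈ range (α + K), (((Icc 1 V).filter (fun t => p ^ (i + 1) ∣ G f V t)).card : ℝ) := by
          apply Finset.sum_le_sum_of_subset_of_nonneg
          · intro i hi
            rw [mem_range] at hi ⊢
            omega
          · intro i _ _
            positivity
      _ = ∑ i ∈ range α, (((Icc 1 V).filter (fun t => p ^ (i + 1) ∣ G f V t)).card : ℝ) +
          ∑ m ∈ range K, (((Icc 1 V).filter (fun t => p ^ (α + (m + 1)) ∣ G f V t)).card : ℝ) := by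
          rw [Finset.sum_range_add]
          congr 1
      _ ≤ ∑ i ∈ range α, (V : ℝ) + ∑ m ∈ range K, (d * (V * (1 / (p : ℝ) ^ (m / d + 1)) + 1)) := by
          apply add_le_add
          · apply Finset.sum_le_sum
            intro i _
            have : ((Icc 1 V).filter (fun t => p ^ (i + 1) ∣ G f V t)).card ≤ V := by
              refine (card_filter_le _ _).trans ?_
              simp
            exact_mod_cast this
          · apply Finset.sum_le_sum
            intro m _
            exact card_sol hp f hd hd1 hα1 V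
      _ = α * V + (d * V * ∑ m ∈ range K, (1 / (p : ℝ) ^ (m / d + 1)) + d * K) := by
          rw [Finset.sum_const, card_range, nsmul_eq_mul, ← Finset.mul_sum, Finset.sum_add_distrib,
            ← Finset.mul_sum]
          simp only [Finset.sum_const, card_range, nsmul_eq_mul, mul_one]
          ring
      _ ≤ _ := by
          have h5 := sum_div_le d K hd1 (fun j => 1 / (p : ℝ) ^ (j + 1)) (fun j => by positivity)
          have h6 : ∑ j ∈ range K, (1 / (p : ℝ) ^ (j + 1)) ≤ 1 / ((p : ℝ) - 1) := by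
            have := geom_le p hp1 K
            rwa [sum_Icc_range K (fun i => 1 / (p : ℝ) ^ i)] at this
          have h7 : ∑ m ∈ range K, (1 / (p : ℝ) ^ (m / d + 1)) ≤ d * (1 / ((p : ℝ) - 1)) :=
            h5.trans (by gcongr)
          have h8 : (d : ℝ) * V * ∑ m ∈ range K, (1 / (p : ℝ) ^ (m / d + 1)) ≤
              d * V * (d * (1 / ((p : ℝ) - 1))) := by gcongr
          nlinarith
  have h4 : (K : ℝ) * Real.log p ≤ Real.log X := by
    have h5 : p ^ K ≤ X := Nat.pow_log_le_self p (by omega)
    have h6 : ((p : ℝ)) ^ K ≤ X := by exact_mod_cast h5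
    have h7 := Real.log_le_log (by positivity) h6
    rwa [Real.log_pow] at h7
  rw [← Finset.sum_mul, h1]
  calc (∑ i ∈ range K, (((Icc 1 V).filter (fun t => p ^ (i + 1) ∣ G f V t)).card : ℝ)) *
        Real.log p ≤ (α * V + (d ^ 2 * V * (1 / ((p : ℝ) - 1)) + d * K)) * Real.log p :=
        mul_le_mul_of_nonneg_right h3 hlp.le
    _ = V * (α * Real.log p) + (d ^ 2 * V * (Real.log p / (p - 1)) + d * (K * Real.log p)) := by ring
    _ ≤ _ := by gcongr

end Pool.Agent.L7h45.PR
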